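import Pool.Agent.J6H49.BC.Stm

/-!
# Expansions of the standard model
-/

set_option autoImplicit false

namespace Pool.Agent.J6H49.BC

open Pool.Agent.TH672 (Fm Str)
open Pool.Agent.TH636.BC (Fml Numerates Erel Crel con)

/-- The expansion of the standard model of arithmetic by the relations `R i`. -/
@[reducible] def expansion (R : ℕ → ℕ → ℕ → ℕ → ℕ → Prop) : Str ℕ where
  M := ℕ
  ne := ⟨0⟩
  zero x := x = 0
  succ x y := y = x + 1
  add x y z := z = x + y
  mul x y z := z = x * y
  op := R

/-- the relations for the theory `RA P` -/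
def stdR (i a b c _d : ℕ) : Prop :=
  match i with
  | 1 => a < b
  | 2 => a < b
  | 3 => a < b ∧ c = a
  | 4 => Erel a b
  | 5 => Crel a b c
  | _ => False

/-- MODULE N: the theory is true in an expansion of the standard model. -/
def TrueN : Prop := ∀ P : Fml, Numerates P → ∀ φ ∈ RA P, ∀ v : ℕ → ℕ,
  Fm.Sat (expansion stdR) φ v

/-- MODULE F: the free variables of the finite consistency formula. -/
def FreeT : Prop := ∀ P : Fml, Numerates P → ∀ x, (con P (RA P)).Free x → x = 3

end Pool.Agent.J6H49.BC
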