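import Pool.Agent.J6H49.BC.Stm2
import Pool.Agent.J6H49.BC.Stm3

/-!
# Dyadic numerals, the language of the theory, truth in the standard model
-/

set_option autoImplicit false

namespace Pool.Agent.J6H49.BC

open Pool.Agent.TH672 (Fm Str digits)
open Pool.Agent.TH636.BC (Fml IsProof Proves code inst con conAt Numerates)

/-! ### dyadic numerals -/

/-- The formula `φ (2 x + 1)` or `φ (2 x + 2)` (if `b` is `true`); the variables `0` and `1` are
used as auxiliary variables. -/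
def digitD (x : ℕ) (b : Bool) (φ : Fml) : Fml :=
  if b then
    .all 0 (.imp (.add x x 0) (.all 1 (.imp (.succ 0 1) (.all x (.imp (.succ 1 x) φ)))))
  else .all 0 (.imp (.add x x 0) (.all x (.imp (.succ 0 x) φ)))

/-- The formula `φ (n)` where the dyadic numeral of `n` is substituted for the variable `x`; in a
language without function symbols this means that the values `0`, `d₁`, `2 d₁ + d₂`, ... are
computed by quantifiers. -/
def instD (x n : ℕ) (φ : Fml) : Fml := .all x (.imp (.zero x) ((digits n).foldr (digitD x) φ))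

/-- The formula `Con_Γ (x)` with dyadic numerals, where `x` is the variable `3`. -/
def conD (P : Fml) (Γ : List Fml) : Fml := instD 2 (code Γ) (instD 4 (code [Fm.bot]) P.neg)

/-- The sentence `Con_Γ (n)` with dyadic numerals. -/
def conAtD (P : Fml) (Γ : List Fml) (n : ℕ) : Fml := instD 3 n (conD P Γ)

/-- MODULE G1: the sums. -/
def G1T : Prop := ∃ C0 : ℕ, ∀ C, C0 ≤ C → ∀ n v : ℕ, 2 * v ≤ n → ∀ G : List Fml,
  ND WB 9 (C * (n + 1) ^ 3) (C * (n + 1)) G (C * (n + 1) ^ 3) (chain n)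
    (Fm.add (dn v) (dn v) (dn (2 * v)))

/-- MODULE G2: the end. -/
def G2T : Prop := ∀ (Y : Fml) (c : ℕ), (∀ x, Y.Free x → x = 3) → 9 ≤ c → BB c Y →
  ∃ C0 : ℕ, ∀ C, C0 ≤ C → ∀ n : ℕ, ∀ G : List Fml,
    imps (chain n ++ [Wn (dn n)]) .bot ∈ G → Fm.all 3 (XX.imp Y) ∈ G →
      ND WB (c + 4) (C * (n + 1) ^ 3) (C * (n + 1)) G (C * (n + 1) ^ 3) []
        (imps (chain n ++ [.eq 3 (dn n)]) Y)

/-- MODULE G3: one digit; `hG1` may be used as a hypothesis. -/
def G3T : Prop := ∀ (Y : Fml) (c : ℕ), (∀ x, Y.Free x → x = 3) → 9 ≤ c → BB c Y →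
  ∃ C0 : ℕ, ∀ C, C0 ≤ C → ∀ (n v : ℕ) (b : Bool) (w : List Bool), w.length ≤ n →
    (2 * v + if b then 2 else 1) ≤ n → ∀ G : List Fml,
    imps (chain n ++ [.eq 3 (dn (2 * v + if b then 2 else 1))]) (w.foldr (digitD 3) Y) ∈ G →
      ND WB (c + 4) (C * (n + 1) ^ 3) (C * (n + 1)) G (C * (n + 1) ^ 3) []
        (imps (chain n ++ [.eq 3 (dn v)]) ((b :: w).foldr (digitD 3) Y))

/-- MODULE G4: the beginning. -/
def G4T : Prop := ∀ (Y : Fml) (c : ℕ), (∀ x, Y.Free x → x = 3) → 9 ≤ c → BB c Y →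
  ∃ C0 : ℕ, ∀ C, C0 ≤ C → ∀ n : ℕ, ∀ G : List Fml,
    imps (chain n ++ [.eq 3 (dn 0)]) ((digits n).foldr (digitD 3) Y) ∈ G →
      ND WB (c + 4) (C * (n + 1) ^ 3) (C * (n + 1)) G (C * (n + 1) ^ 3) []
        (imps (chain n) (instD 3 n Y))

/-- MODULE G5: the numbers exist. -/
def G5T : Prop := ∀ (Y : Fml) (c : ℕ), (∀ x, Y.Free x → x = 3) → 9 ≤ c → BB c Y →
  ∃ C0 : ℕ, ∀ C, C0 ≤ C → ∀ n : ℕ,
    (∀ j < n, ∀ G : List Fml, imps (chain (j + 1)) (instD 3 n Y) ∈ G →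
      ND WB (c + 4) (C * (n + 1) ^ 3) (C * (n + 1)) G (C * (n + 1) ^ 3) []
        (imps (chain j) (instD 3 n Y))) ∧
    ∀ G : List Fml, imps (chain 0) (instD 3 n Y) ∈ G →
      ND WB (c + 4) (C * (n + 1) ^ 3) (C * (n + 1)) G (C * (n + 1) ^ 3) [] (instD 3 n Y)

/-- MODULE G6: the fixed proof. -/
def G6T : Prop := ∀ (P : Fml), Numerates P →
  (∀ x, (conD P (RA P)).Free x → x = 3) ∧
  ∃ π, IsProof (RA P) ((Fm.all 3 (XX.imp (conD P (RA P)))) :: π)

/-! ### truth in the standard model -/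

/-- MODULE N2: the finite consistency statements are true in the standard model if and only if
there is no such proof. -/
def TrueConT : Prop := ∀ P : Fml, Numerates P → ∀ (R : ℕ → ℕ → ℕ → ℕ → ℕ → Prop) (Γ : List Fml)
  (n : ℕ) (v : ℕ → ℕ),
  (Fm.Sat (expansion R) (conAt P Γ n) v ↔ ¬ Proves Γ n .bot) ∧
  (Fm.Sat (expansion R) (conAtD P Γ n) v ↔ ¬ Proves Γ n .bot)

/-! ### the language -/

/-- The formula contains no predicate symbols `R i` with `i ≥ 6`. -/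
def InL : Fml → Prop
  | .op i _ _ _ _ => i < 6
  | .imp φ ψ => InL φ ∧ InL ψ
  | .all _ φ => InL φ
  | _ => True

/-- Replace the formulas `R i a b c d` with `i ≥ 6` by `a = b`. -/
def trL : Fml → Fml
  | .op i a b c d => if i < 6 then .op i a b c d else .eq a b
  | .imp φ ψ => .imp (trL φ) (trL ψ)
  | .all x φ => .all x (trL φ)
  | φ => φ

/-- MODULE T: translation of proofs. -/
def TrT : Prop := (∀ Γ π : List Fml, (∀ φ ∈ Γ, InL φ) → IsProof Γ π → IsProof Γ (π.map trL)) ∧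
  (∀ φ, InL (trL φ)) ∧ (∀ φ, InL φ → trL φ = φ) ∧ (∀ φ, sz (trL φ) ≤ sz φ) ∧
  (∀ s k φ, Pool.Agent.TH636.BC.Cx s k φ → Pool.Agent.TH636.BC.Cx s k (trL φ)) ∧
  ∀ P : Fml, Numerates P → (∀ φ ∈ RA P, InL φ) ∧ (∀ n, InL (conAt P (RA P) n)) ∧
    ∀ n, InL (conAtD P (RA P) n)

end Pool.Agent.J6H49.BC
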