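import Pool.Agent.TH197.J1545b
import Pool.Agent.TH838.J1549

/-!
# Finite consistency statements and proofs of bounded quantifier complexity: the theory `RA P`

The theory, its pseudo-models, and the statements of the lemmas.
-/

set_option autoImplicit false

namespace Pool.Agent.J6H49.BC

open Pool.Agent.TH672 (Fm Str upd varStr num digits LogK ReplK Sw Pv)
open Pool.Agent.TH636.BC (Fml Step IsProof str strs Proves code blk inst robinson Arith PrRel
  Numerates con conAt Cx lt col Ef Cf TE hd bs tl appn St Ok Agr Eqs Erel Crel AddS MulS SuccS Vlt)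
open Pool.Agent.TH197.J1545 (D DM Dop)

/-! ### The theory -/

/-- `v` lies beyond `b` -/
def hi (b v : ℕ) : Fml := .op 2 b v v v

/-- The axioms on `hi`, `col` and `lt`. -/
def U0 : List Fml := [
  -- for all `b` some `v` lies beyond `b`
  .all 15 (.ex 17 (hi 15 17)),
  -- for all `a`, `b` there is `c` such that what lies beyond `c` lies beyond `a` and `b`
  .all 15 (.all 17 (.ex 19 (.all 21 (.imp (hi 19 21) (.and (hi 15 21) (hi 17 21)))))),
  -- if `u` lies beyond something, then the pairs `u`, `v` with `v` beyond some `b` have a colour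
  .all 15 (.all 17 (.imp (hi 15 17) (.ex 19 (.all 21 (.imp (hi 19 21) (.ex 23 (col 17 21 23))))))),
  -- there are no monochromatic triangles
  .all 15 (.all 17 (.all 19 (.all 21 (.imp (col 15 17 21) (.imp (col 15 19 21)
    (.neg (col 17 19 21))))))),
  -- nothing is less than zero
  .all 15 (.all 17 (.imp (.zero 15) (.neg (lt 17 15)))),
  -- if `y < x + 1`, then `y < x` or `y = x`
  .all 15 (.all 17 (.all 19 (.imp (.succ 15 17) (.imp (lt 19 17) (.or (lt 19 15) (.eq 19 15))))))]

/-- all axioms but one -/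
def WB : List Fml := robinson ++ U0 ++ TE

/-- not all colours are less than `v₃` -/
def XX : Fml := .neg (.all 33 (.all 35 (.all 37 (.imp (col 33 35 37) (lt 37 3)))))

/-- the formula for the last axiom: if not all colours are less than `y`, then there is no
contradiction of length at most `y` from the axioms with the code `w`, `C (v₂₉, v₂₉, w)` -/
def rf (P : Fml) : Fml :=
  .all 2 (.imp (Cf 29 29 2) (.all 3 (.imp XX (inst 4 (code [Fm.bot]) P.neg))))

/-- the number used for the self-reference -/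
def rn (P : Fml) : ℕ := code (rf P :: WB)

/-- the last axiom -/
def rs (P : Fml) : Fml := inst 29 (rn P) (rf P)

/-- the axiomatization -/
def RA (P : Fml) : List Fml := rs P :: WB

/-! ### The pseudo-model of dimension `m` -/

/-- the rank of a value -/
def rk : ℕ ⊕ ℕ → ℕ
  | .inl a => a
  | .inr h => h

/-- the additional symbols -/
def OpP (s : St) (i a b c : ℕ) : Prop :=
  match i with
  | 1 => ∃ p, s.v a = .inl p ∧ ∀ q, s.v b = .inl q → p < q
  | 2 => ∃ h, s.v b = .inr h ∧ rk (s.v a) < h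
  | 3 => ∃ δ, s.v c = .inl δ ∧ s.c a b = δ + 1
  | 4 => ∃ p q, s.v a = .inl p ∧ s.v b = .inl q ∧ Erel p q
  | 5 => ∃ p q r, s.v a = .inl p ∧ s.v b = .inl q ∧ s.v c = .inl r ∧ Crel p q r
  | _ => False

/-- pseudo-truth; the quantifiers range over the valid states that agree off the variable -/
def Tru (m : ℕ) : Fml → St → Prop
  | .bot, _ => False
  | .eq x y, s => Eqs s x y
  | .zero x, s => s.v x = .inl 0
  | .succ x y, s => SuccS s x y
  | .add x y z, s => AddS s x y z
  | .mul x y z, s => MulS s x y z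
  | .op i a b c _, s => OpP s i a b c
  | .imp φ ψ, s => Tru m φ s → Tru m ψ s
  | .all x φ, s => ∀ t, Ok m t → Agr m x s t → Tru m φ t

/-- a formula whose variables are below `m` is true in all valid states -/
def Tr1 (m : ℕ) (φ : Fml) : Prop := ∀ s, Ok m s → Tru m φ s

/-- MODULE A1: extension of states. The value `a` and the colours `d j`, `j ∈ F`, of the pairs
`x`, `j` can be extended to a valid state that agrees with `s` off `x`. -/
def ExtT : Prop := ∀ (m : ℕ) (s : St) (x : ℕ) (F : ℕ → Prop) (a : ℕ ⊕ ℕ) (d : ℕ → ℕ),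
  Ok m s → x < m → (∀ j, F j → j < m ∧ j ≠ x) →
  (∀ j, F j → a.isLeft ∨ (s.v j).isLeft → d j = 0) →
  (∀ j, F j → d j ≤ m) →
  (∀ j, F j → a.isRight → (s.v j).isRight → d j = 0 → s.v j = a) →
  (∀ i j, F i → F j → a.isRight → (s.v i).isRight → d i = 0 → d j = s.c i j) →
  (∀ i j, F i → F j → (s.v i).isRight → (s.v j).isRight → s.c i j = 0 → d i = d j) →
  (∀ i j, F i → F j → d i = d j → d i = s.c i j → d i = 0) →
  ∃ t, Ok m t ∧ Agr m x s t ∧ t.v x = a ∧ ∀ j, F j → t.c x j = d j

/-- MODULE A2: soundness of the calculus. -/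
def SoundT : Prop := ∀ (m : ℕ) (Γ π : List Fml), IsProof Γ π → (∀ φ ∈ π, Vlt m φ) →
  (∀ φ ∈ Γ, Vlt m φ → Tr1 m φ) → ∀ φ ∈ π, Tr1 m φ

/-! ### The transfer from the real structure `D` -/

/-- The formula does not contain the symbols `op 0`, ..., `op 3`. -/
def Lw : Fml → Prop
  | .op i _ _ _ _ => 4 ≤ i
  | .imp φ ψ => Lw φ ∧ Lw ψ
  | .all _ φ => Lw φ
  | _ => True

/-- the assignment `v` in the real structure realizes the state -/
structure Realz (m : ℕ) (s : St) (v : ℕ → DM) : Prop where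
  num : ∀ i < m, ∀ a, s.v i = .inl a ↔ v i = .inl a
  node : ∀ i < m, ∀ h, s.v i = .inr h → ∃ k, v i = .inr (k, h)
  eqv : ∀ i < m, ∀ j < m, (s.v i).isRight → (s.v j).isRight → (v i = v j ↔ s.c i j = 0)

/-- MODULE B1: pseudo-truth of formulas without `op 0`, ..., `op 3`. -/
def TransferT : Prop := ∀ (m : ℕ) (φ : Fml), Vlt m φ → Lw φ → ∀ (s : St) (v : ℕ → DM),
  Ok m s → Realz m s v → (Tru m φ s ↔ Fm.Sat D φ v)

/-- MODULE B2: every state is realized. -/
def ExRealzT : Prop := ∀ (m : ℕ) (s : St), Ok m s → ∃ v, Realz m s v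

/-- MODULE B3: the axioms `TE` hold in `D`. -/
def TET : Prop := ∀ φ ∈ TE, ∀ v : ℕ → DM, Fm.Sat D φ v

/-- MODULE B4: the axioms `U0` are pseudo-true. -/
def U0T : Prop := ∀ (m : ℕ), ∀ φ ∈ U0, Vlt m φ → Tr1 m φ

/-- MODULE B5: the last axiom is pseudo-true. -/
def RsT : Prop := ∀ (P : Fml), Numerates P → ∀ m : ℕ, (∀ y < m, ¬ Proves (RA P) y .bot) →
  Vlt m (rs P) → Tr1 m (rs P)

/-- MODULE B6: consistency. -/
def ConsT : Prop := ∀ (P : Fml), Numerates P → ∀ m, ¬ Proves (RA P) m .bot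

/-- MODULE C: the fixed proof. -/
def FixT : Prop := ∀ (P : Fml), Numerates P →
  (∀ φ ∈ RA P, φ.Closed) ∧ ∃ π, IsProof (RA P) ((Fm.all 3 (XX.imp (con P (RA P)))) :: π)

/-- MODULE D: short proofs of bounded complexity. -/
def ShortT : Prop := ∃ (k : ℕ) (p : Polynomial ℕ), ∀ n : ℕ, ∃ π,
  IsProof WB (inst 3 n XX :: π) ∧ (strs (inst 3 n XX :: π)).length ≤ p.eval n ∧
    ∀ φ ∈ inst 3 n XX :: π, Cx true k φ

/-- MODULE E: there is a numeration. -/
def NumT : Prop := ∃ P, Numerates P

/-- The theorem. -/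
def MainT : Prop := ∀ P : Fml, Numerates P →
  ∃ (A : List Fml) (k : ℕ) (p : Polynomial ℕ), (∀ φ ∈ robinson, φ ∈ A) ∧ (∀ φ ∈ A, φ.Closed) ∧
    (∀ m, ¬ Proves A m .bot) ∧
    ∀ n : ℕ, ∃ π, IsProof A (conAt P A n :: π) ∧ (strs (conAt P A n :: π)).length ≤ p.eval n ∧
      ∀ φ ∈ conAt P A n :: π, Cx true k φ

end Pool.Agent.J6H49.BC
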