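import Pool.Agent.J6H49.BC.Final
import Pool.Agent.J6H77.BC.True
import Pool.Agent.J6H77.BC.Cons
import Pool.Agent.J6H77.BC.D3b3
import Pool.Agent.J6H81.BC.Sound
import Pool.Agent.J6H81.BC.Tr
import Pool.Agent.J6H48.BC.B1
import Pool.Agent.J6H48.BC.B3
import Pool.Agent.J6H48.BC.G2
import Pool.Agent.J6H48.BC.G4
import Pool.Agent.J6H40.BC.Fix
import Pool.Agent.J6H40.BC.FixD
import Pool.Agent.J6H40.BC.Subst2
import Pool.Agent.J6H79.BC.NumT
import Pool.Agent.J6H79.BC.G5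
import Pool.Agent.J6H92.BC.D2a
import Pool.Agent.J6H92.BC.G1
import Pool.Agent.J6H92.BC.G3
import Pool.Agent.J6H94.BC.D2b
import Pool.Agent.J6H63.BC.D3a
import Pool.Agent.J6H63.BC.D3b1
import Pool.Agent.J6H63.BC.D3b2
import Pool.Agent.J6H63.BC.TrueCon

/-!
# The theorem from all modules
-/

set_option autoImplicit false

namespace Pool.Agent.J6H49.BC

theorem consT : ConsT :=
  J6H77.BC.cons J6H81.BC.ext J6H81.BC.sound (transfer J6H81.BC.ext) exRealz te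

/-- The main theorem. -/
theorem main_theorem : Main2 :=
  main2 J6H79.BC.numT consT J6H40.BC.fixT J6H77.BC.freeT (J6H77.BC.trueN consT)
    J6H63.BC.trueCon J6H40.BC.g6 J6H81.BC.trT J6H40.BC.sl J6H40.BC.zl J6H40.BC.zl' J6H92.BC.d2a
    J6H94.BC.d2b J6H63.BC.d3a J6H63.BC.d3b1 J6H63.BC.d3b2 J6H77.BC.d3b3 J6H48.BC.g2
    (J6H92.BC.g3 J6H92.BC.g1) J6H48.BC.g4 J6H79.BC.g5

end Pool.Agent.J6H49.BC
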