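import Pool.Agent.J6H49.BC.Asm0

/-!
# Assembly of the short proofs, second part
-/

set_option autoImplicit false

namespace Pool.Agent.J6H49.BC

open Pool.Agent.TH672 (Fm LogK)
open Pool.Agent.TH636.BC (Fml Step IsProof str strs Cx inst)

/-- the parameters for `n` -/
structure Par (C n s l K L q c : ℕ) : Prop where
  hs : s = C * (n + 1) ^ 3
  hl : l = C * (n + 1)
  hL : 1000 * ((l + 1) * (s + 4) + 1) ≤ L
  hq : q = 100 * (l + 1) ^ 2
  hK : K = c + 6
  hc : 9 ≤ c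
  hC : 1 ≤ C

theorem Par.size {C n s l K L q c : ℕ} (p : Par C n s l K L q c) : 2 * s + 12 * n + 200 ≤ L := by
  have h1 := p.hL
  have h2 : n + 1 ≤ l := by
    rw [p.hl]
    exact Nat.le_mul_of_pos_left _ p.hC
  have h3 : (n + 2) * (s + 4) ≤ (l + 1) * (s + 4) := Nat.mul_le_mul_right _ (by omega)
  nlinarith

/-- a substitution instance -/
theorem sub_dv {Γ G : List Fml} {C n s l K L q c c' N : ℕ} (p : Par C n s l K L q c)
    {φ : Fml} (h : Dv Γ K L G N φ) {x y : ℕ} (hf : φ.FreeFor y x) (hc' : c' + 2 ≤ K)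
    (h1 : W c' s φ) (h2 : W c' s (φ.subst x y)) (hx : x ≤ 12 * n + 100) :
    Dv Γ K L G (N + 3) (φ.subst x y) := by
  have := p.size
  have := h1.le
  have := h2.le
  exact h.subst hf ((h1.bb.all x).mono hc') (h2.bb.mono (by omega)) (by omega)

theorem pp_succ (k : ℕ) : PP (k + 1) = PP k ++ [(pn k, qn k)] := by
  simp [PP, List.range_succ]

section

variable {C n s l K L q c : ℕ} (p : Par C n s l K L q c) (sl : SL)

include p sl in
/-- the instances -/
theorem inst_dv (hz : ∀ k r, k + r ≤ n + 1 → W 5 s (FF (PP k) (DD r)) ∧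
      (∀ j < r, W 5 s (FF (PP k) (DJ r j)) ∧ W 5 s (FF (PJ k j) (DJ r j))))
    (G : List Fml) (k r j : ℕ) (hkr : k + (r + 1) ≤ n) (hj : j < r + 1) :
    Dv WB K L (FF (PP (k + 1)) (DD r) :: G) 6 (FF (PJ k j) (DJ (r + 1) j)) := by
  have hK := p.hK
  have hc := p.hc
  have h0 : Dv WB K L (FF (PP (k + 1)) (DD r) :: G) 0 (FF (PP (k + 1)) (DD r)) :=
    .of_mem List.mem_cons_self _
  have z1 := hz (k + 1) (r + 1) (by omega)
  have z0 := hz k (r + 1) (by omega)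
  have h1 : Dv WB K L (FF (PP (k + 1)) (DD r) :: G) 3 (FF (PP (k + 1)) (DJ (r + 1) j)) := by
    rcases Nat.lt_or_ge (j + 1) (r + 1) with h | h
    · obtain ⟨e1, e2⟩ := sl.a1 (k + 1) (r + 1) j h
      rw [Nat.add_sub_cancel] at e1 e2
      rw [← e1]
      refine sub_dv (c' := 5) p h0 e2 (by omega) (hz (k + 1) r (by omega)).1 ?_ ?_
      · rw [e1]; exact (z1.2 j hj).1
      · simp only [dn]; omega
    · have e := sl.a2 (k + 1) (r + 1) j (by omega)
      rw [Nat.add_sub_cancel] at e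
      rw [← e]
      exact h0.mono (by omega)
  obtain ⟨e1, e2⟩ := sl.a3 k (r + 1) j hj
  rw [← e1]
  refine sub_dv (c' := 5) p h1 e2 (by omega) (z1.2 j hj).1 ?_ ?_
  · rw [e1]; exact (z0.2 j hj).2
  · simp only [qn]; omega

include p sl in
/-- the step of the induction -/
theorem step_dv (hz : ∀ k r, k + r ≤ n + 1 → W 5 s (FF (PP k) (DD r)) ∧
      (∀ j < r, W 5 s (FF (PP k) (DJ r j)) ∧ W 5 s (FF (PJ k j) (DJ r j))))
    (h2a : ∀ k r j : ℕ, k + r ≤ n → j < r → ∀ G : List Fml, FF (PJ k j) (DJ r j) ∈ G →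
      ND WB 9 s l G s (G2 k r) (Fm.neg (Kf (PJ k j))))
    (h2b : ∀ k r N : ℕ, k + r ≤ n → ∀ G : List Fml,
      (∀ j < r, ND WB 9 s l G N (G2 k r) (Fm.neg (Kf (PJ k j)))) →
        ND WB 9 s l G (r * N + s) [] (FF (PP k) (DD r)))
    (G : List Fml) (k r : ℕ) (hkr : k + (r + 1) ≤ n) :
    Dv WB K L (FF (PP (k + 1)) (DD r) :: G) ((r + 1) * 6 + ((r + 1) * s + s) * q)
      (FF (PP k) (DD (r + 1))) := by
  have hK := p.hK
  have hc := p.hc
  have hq := p.hq
  have h1 := h2b k (r + 1) s hkr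
    ((List.range (r + 1)).map (fun j => FF (PJ k j) (DJ (r + 1) j)) ++
      (FF (PP (k + 1)) (DD r) :: G)) fun j hj => h2a k (r + 1) j hkr hj _ (by
        refine List.mem_append_left _ (List.mem_map.2 ⟨j, List.mem_range.2 hj, rfl⟩))
  have h2 := h1.dv (K := K) (M := 6) (by omega) p.hL (fun ψ hψ => by
    obtain ⟨j, hj, rfl⟩ := List.mem_map.1 hψ
    exact inst_dv p sl hz G k r j hkr (List.mem_range.1 hj))
  rw [List.length_map, List.length_range, ← hq] at h2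
  exact h2

include p sl in
/-- the induction -/
theorem ind_dv (hz : ∀ k r, k + r ≤ n + 1 → W 5 s (FF (PP k) (DD r)) ∧
      (∀ j < r, W 5 s (FF (PP k) (DJ r j)) ∧ W 5 s (FF (PJ k j) (DJ r j))))
    (h2a : ∀ k r j : ℕ, k + r ≤ n → j < r → ∀ G : List Fml, FF (PJ k j) (DJ r j) ∈ G →
      ND WB 9 s l G s (G2 k r) (Fm.neg (Kf (PJ k j))))
    (h2b : ∀ k r N : ℕ, k + r ≤ n → ∀ G : List Fml,
      (∀ j < r, ND WB 9 s l G N (G2 k r) (Fm.neg (Kf (PJ k j)))) →
        ND WB 9 s l G (r * N + s) [] (FF (PP k) (DD r)))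
    (G : List Fml) : ∀ r : ℕ, r ≤ n →
    Dv WB K L G (s * q + r * ((n + 1) * 6 + ((n + 1) * s + s) * q)) (FF (PP (n - r)) (DD r))
  | 0, _ => by
    have hK := p.hK
    have hc := p.hc
    have h1 := h2b n 0 0 (by omega) ([] ++ G) (fun j hj => absurd hj (Nat.not_lt_zero _))
    have h2 := h1.dv (K := K) (M := 0) (by omega) p.hL
      (fun ψ hψ => absurd hψ List.not_mem_nil)
    rw [← p.hq] at h2
    refine h2.mono ?_
    simp
  | r + 1, hr => by
    have h1 := ind_dv hz h2a h2b G r (by omega)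
    have e : n - r = (n - (r + 1)) + 1 := by omega
    rw [e] at h1
    have h2 := step_dv p sl hz h2a h2b G (n - (r + 1)) r (by omega)
    refine (h1.cut h2).mono ?_
    have e1 : (r + 1) * 6 ≤ (n + 1) * 6 := by omega
    have e2 : ((r + 1) * s + s) * q ≤ ((n + 1) * s + s) * q :=
      Nat.mul_le_mul_right _ (Nat.add_le_add_right (Nat.mul_le_mul_right _ (by omega)) _)
    have e3 : (r + 1) * ((n + 1) * 6 + ((n + 1) * s + s) * q) =
        r * ((n + 1) * 6 + ((n + 1) * s + s) * q) + ((n + 1) * 6 + ((n + 1) * s + s) * q) :=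
      Nat.succ_mul _ _
    rw [e3]
    omega

variable {Y : Fml}

include p sl in
/-- the blocks -/
theorem blk_dv (hY : ∀ x, Y.Free x → x = 3)
    (hz' : ∀ i j, i + j ≤ n →
      W (c + 2) s (imps (chain j ++ [Fm.eq 0 (dn j)]) (Rr Y i)) ∧
      W (c + 2) s (imps (chain j ++ [Fm.succ (dn j) 1, Fm.eq 0 1]) (Rr Y i)) ∧
      W (c + 2) s (imps [Fm.zero 0, Fm.eq 0 0] (Rr Y i)))
    (h3 : ∀ i j : ℕ, i + j + 1 ≤ n → ∀ G : List Fml,
      imps (chain j ++ [.succ (dn j) 1, .eq 0 1]) (Rr Y i) ∈ G →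
      ND WB (c + 4) s l G s [] (imps (chain j ++ [.eq 0 (dn j)]) (Rr Y (i + 1))))
    {G : List Fml} {N : ℕ}
    (h0 : Dv WB K L G N (imps (chain n ++ [.eq 0 (dn n)]) (Rr Y 0))) : ∀ i : ℕ, i ≤ n →
    Dv WB K L G (N + i * (3 + s * q)) (imps (chain (n - i) ++ [.eq 0 (dn (n - i))]) (Rr Y i))
  | 0, _ => by simpa using h0
  | i + 1, hi => by
    have hK := p.hK
    have h1 := blk_dv hY hz' h3 h0 i (by omega)
    obtain ⟨j, hj⟩ : ∃ j, j = n - (i + 1) := ⟨_, rfl⟩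
    have e : n - i = j + 1 := by omega
    rw [e] at h1
    rw [← hj]
    obtain ⟨e1, e2⟩ := sl.a4 Y hY i j
    have h2 := sub_dv (c' := c + 2) p h1 e2 (by omega) (hz' i (j + 1) (by omega)).1
      (by rw [e1]; exact (hz' i j (by omega)).2.1) (by simp only [dn]; omega)
    rw [e1] at h2
    have h3' := h3 i j (by omega) ([imps (chain j ++ [.succ (dn j) 1, .eq 0 1]) (Rr Y i)] ++ G)
      (by simp)
    have h4 := h3'.dv (K := K) (M := N + i * (3 + s * q) + 3) (by omega) p.hL (fun ψ hψ => by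
      rw [List.mem_singleton.1 hψ]; exact h2)
    rw [← p.hq, List.length_singleton, Nat.one_mul] at h4
    refine h4.mono ?_
    rw [Nat.add_mul i 1, Nat.one_mul]
    omega

end

/-- short proofs of `inst 3 n Y` -/
theorem shortY (sl : SL) (zl : ZL) (zl' : ZL') (h2a : D2aT) (h2b : D2bT) (h3a : D3aT)
    (h3b1 : D3b1T) (h3b2 : D3b2T) (h3b3 : D3b3T) (Y : Fml) (hY : ∀ x, Y.Free x → x = 3)
    (c : ℕ) (hc : 9 ≤ c) (hYc : BB c Y) :
    ∃ N L : ℕ → ℕ, PF N ∧ PF L ∧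
      ∀ n, Dv WB (c + 6) (L n) [Fm.all 3 (XX.imp Y)] (N n) (inst 3 n Y) := by
  obtain ⟨C1, hC1⟩ := zl
  obtain ⟨C2, hC2⟩ := zl' Y c hY (by omega) hYc
  obtain ⟨C3, hC3⟩ := h2a
  obtain ⟨C4, hC4⟩ := h2b
  obtain ⟨C5, hC5⟩ := h3a
  obtain ⟨C6, hC6⟩ := h3b1 Y c hY hc hYc
  obtain ⟨C7, hC7⟩ := h3b2 Y c hY hc hYc
  obtain ⟨C8, hC8⟩ := h3b3 Y c hY hc hYc
  obtain ⟨C, hC⟩ : ∃ C, C = C1 + C2 + C3 + C4 + C5 + C6 + C7 + C8 + 1 := ⟨_, rfl⟩
  have pfs : PF fun n => C * (n + 1) ^ 3 := (PF.const C).mul ((PF.id.add (PF.const 1)).pow 3)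
  have pfl : PF fun n => C * (n + 1) := (PF.const C).mul (PF.id.add (PF.const 1))
  have pfL : PF fun n => 1000 * ((C * (n + 1) + 1) * (C * (n + 1) ^ 3 + 4) + 1) :=
    (PF.const 1000).mul (((pfl.add (PF.const 1)).mul (pfs.add (PF.const 4))).add (PF.const 1))
  have pfq : PF fun n => 100 * (C * (n + 1) + 1) ^ 2 :=
    (PF.const 100).mul ((pfl.add (PF.const 1)).pow 2)
  have pf1 : PF fun n => C * (n + 1) ^ 3 * (100 * (C * (n + 1) + 1) ^ 2) := pfs.mul pfq
  have pf2 : PF fun n => C * (n + 1) ^ 3 * (100 * (C * (n + 1) + 1) ^ 2) +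
      n * ((n + 1) * 6 + ((n + 1) * (C * (n + 1) ^ 3) + C * (n + 1) ^ 3) *
        (100 * (C * (n + 1) + 1) ^ 2)) :=
    pf1.add (PF.id.mul (((PF.id.add (PF.const 1)).mul (PF.const 6)).add
      ((((PF.id.add (PF.const 1)).mul pfs).add pfs).mul pfq)))
  refine ⟨fun n => (C * (n + 1) ^ 3 * (100 * (C * (n + 1) + 1) ^ 2) +
      n * ((n + 1) * 6 + ((n + 1) * (C * (n + 1) ^ 3) + C * (n + 1) ^ 3) *
        (100 * (C * (n + 1) + 1) ^ 2))) +
      C * (n + 1) ^ 3 * (100 * (C * (n + 1) + 1) ^ 2) +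
      C * (n + 1) ^ 3 * (100 * (C * (n + 1) + 1) ^ 2) +
      n * (3 + C * (n + 1) ^ 3 * (100 * (C * (n + 1) + 1) ^ 2)) + 3 +
      C * (n + 1) ^ 3 * (100 * (C * (n + 1) + 1) ^ 2),
    _, ((((pf2.add pf1).add pf1).add (PF.id.mul ((PF.const 3).add pf1))).add
      (PF.const 3)).add pf1, pfL, fun n => ?_⟩
  obtain ⟨s, hs⟩ : ∃ s, s = C * (n + 1) ^ 3 := ⟨_, rfl⟩
  obtain ⟨l, hl⟩ : ∃ l, l = C * (n + 1) := ⟨_, rfl⟩
  obtain ⟨L, hL⟩ : ∃ L, L = 1000 * ((l + 1) * (s + 4) + 1) := ⟨_, rfl⟩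
  obtain ⟨q, hq⟩ : ∃ q, q = 100 * (l + 1) ^ 2 := ⟨_, rfl⟩
  obtain ⟨K, hK⟩ : ∃ K, K = c + 6 := ⟨_, rfl⟩
  have p : Par C n s l K L q c := ⟨hs, hl, by rw [hL], by rw [hq], hK, hc, by omega⟩
  have g1 := hC1 C (by omega) n
  have g2 := hC2 C (by omega) n
  have g3 := hC3 C (by omega) n
  have g4 := hC4 C (by omega) n
  have g5 := hC5 C (by omega) n
  have g6 := hC6 C (by omega) n
  have g7 := hC7 C (by omega) n
  have g8 := hC8 C (by omega) n
  clear pfs pfl pfL pfq pf1 pf2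
  simp only [← hs, ← hl] at g1 g2 g3 g4 g5 g6 g7 g8 ⊢
  simp only [← hL, ← hq]
  rw [← hK]
  obtain ⟨Θ, hΘ⟩ : ∃ Θ, Θ = Fm.all 3 (XX.imp Y) := ⟨_, rfl⟩
  have hKc := p.hK
  -- the induction
  have a1 := ind_dv p sl g1 g3 g4 [Θ] n le_rfl
  rw [Nat.sub_self] at a1
  -- not all colours are less than `n`
  have a2 := (g5 ([FF [] (DD n)] ++ [Θ]) (by simp)).dv (K := K) (by omega) p.hL (fun ψ hψ => by
    rw [List.mem_singleton.1 hψ]; exact a1)
  rw [← p.hq, List.length_singleton, Nat.one_mul] at a2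
  have a3 := (g6 ([imps (chain n ++ [Wn (dn n)]) .bot] ++ [Θ]) (by simp) (by
    rw [← hΘ]; simp)).dv (K := K) (by omega) p.hL (fun ψ hψ => by
    rw [List.mem_singleton.1 hψ]; exact a2)
  rw [← p.hq, List.length_singleton, Nat.one_mul] at a3
  have a4 := blk_dv p sl hY g2 g7 a3 n le_rfl
  rw [Nat.sub_self] at a4
  obtain ⟨e1, e2⟩ := sl.a5 Y hY n
  have a5 := sub_dv (c' := c + 2) p a4 e2 (by omega) (g2 n 0 (by omega)).1
    (by rw [e1]; exact (g2 n 0 (by omega)).2.2) (by simp only [dn]; omega)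
  rw [e1] at a5
  have a6 := (g8 ([imps [.zero 0, .eq 0 0] (Rr Y n)] ++ [Θ]) (by simp)).dv (K := K)
    (by omega) p.hL (fun ψ hψ => by rw [List.mem_singleton.1 hψ]; exact a5)
  rw [← p.hq, List.length_singleton, Nat.one_mul] at a6
  rw [hΘ] at a6
  exact a6

/-! ### proofs -/

theorem seg_axioms {Γ Γ' G : List Fml} (hΓ : ∀ ψ ∈ Γ, ψ ∈ Γ') {A : List Fml}
    (hA : Seg Γ G A) : Seg Γ' G A := by
  induction A with
  | nil => trivial
  | cons φ A ih =>
    refine ⟨ih hA.1, ?_⟩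
    rcases hA.2 with h | h
    · exact .inl (hΓ _ h)
    · exact .inr h

theorem isProof_suffix {Γ : List Fml} {A B : List Fml} (h : IsProof Γ (A ++ B)) :
    IsProof Γ B := by
  induction A with
  | nil => exact h
  | cons φ A ih => exact ih h.1

theorem strs_le {A : List Fml} {L : ℕ} (h : ∀ ψ ∈ A, sz ψ ≤ L) :
    (strs A).length ≤ A.length * L := by
  induction A with
  | nil => simp [strs]
  | cons φ A ih =>
    have h1 := h φ List.mem_cons_self
    have h2 := ih fun ψ hψ => h ψ (List.mem_cons_of_mem _ hψ)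
    have e : strs (φ :: A) = str φ ++ strs A := rfl
    rw [e, List.length_append, List.length_cons, Nat.succ_mul]
    have : (str φ).length = sz φ := rfl
    omega

theorem strs_append' (A B : List Fml) : strs (A ++ B) = strs A ++ strs B := by
  simp [strs, List.flatMap_append]

theorem exists_bbs : ∀ A : List Fml, ∃ c, ∀ φ ∈ A, BB c φ
  | [] => ⟨0, fun _ h => absurd h List.not_mem_nil⟩
  | φ :: A => by
    obtain ⟨c1, h1⟩ := exists_bb φ
    obtain ⟨c2, h2⟩ := exists_bbs A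
    refine ⟨max c1 c2, fun ψ hψ => ?_⟩
    rcases List.mem_cons.1 hψ with rfl | hψ
    · exact h1.mono (le_max_left _ _)
    · exact (h2 ψ hψ).mono (le_max_right _ _)

open Pool.Agent.TH636.BC (Numerates robinson Proves conAt con code) in
/-- the theorem from the modules -/
theorem mainT (hcons : ConsT) (hfix : FixT) (sl : SL) (zl : ZL) (zl' : ZL') (h2a : D2aT)
    (h2b : D2bT) (h3a : D3aT) (h3b1 : D3b1T) (h3b2 : D3b2T) (h3b3 : D3b3T)
    (hfree : ∀ P : Fml, Numerates P → ∀ x, (con P (RA P)).Free x → x = 3) : MainT := by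
  intro P hP
  obtain ⟨hcl, π0, hπ0⟩ := hfix P hP
  obtain ⟨c0, hc0⟩ := exists_bb (con P (RA P))
  obtain ⟨N, L, ⟨pN, hpN⟩, ⟨pL, hpL⟩, hdv⟩ := shortY sl zl zl' h2a h2b h3a h3b1 h3b2 h3b3
    (con P (RA P)) (hfree P hP) (c0 + 9) (by omega) (hc0.mono (by omega))
  obtain ⟨Θ, hΘ⟩ : ∃ Θ, Θ = Fm.all 3 (XX.imp (con P (RA P))) := ⟨_, rfl⟩
  rw [← hΘ] at hπ0 hdv
  obtain ⟨c1, hc1⟩ := exists_bbs (Θ :: π0)
  refine ⟨RA P, c0 + 9 + 6 + c1, pN * pL + Polynomial.C (strs (Θ :: π0)).length, ?_, hcl,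
    hcons P hP, fun n => ?_⟩
  · intro φ hφ
    simp only [RA, WB, List.mem_cons, List.mem_append]
    tauto
  · obtain ⟨π, h1, h2, h3, h4⟩ := hdv n
    have h5 : Seg (RA P) (Θ :: π0) π :=
      seg_mono (fun ψ hψ => by rw [List.mem_singleton.1 hψ]; exact List.mem_cons_self)
        (seg_axioms (fun ψ hψ => List.mem_cons_of_mem _ hψ) h1)
    have h6 := seg_proof hπ0 h5
    have h7 : conAt P (RA P) n ∈ π ++ (Θ :: π0) := by
      change inst 3 n (con P (RA P)) ∈ _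
      rcases List.mem_append.1 h4 with h | h
      · exact List.mem_append_left _ h
      · rw [List.mem_singleton.1 h]
        simp
    obtain ⟨A, B, hAB⟩ := List.append_of_mem h7
    rw [hAB] at h6
    refine ⟨B, isProof_suffix h6, ?_, fun φ hφ => ?_⟩
    · have e1 : (strs (conAt P (RA P) n :: B)).length ≤ (strs (π ++ (Θ :: π0))).length := by
        rw [hAB, strs_append', List.length_append]
        omega
      have e2 : (strs π).length ≤ N n * L n :=
        (strs_le fun ψ hψ => (h3 ψ hψ).2).trans (Nat.mul_le_mul_right _ h2)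
      rw [strs_append', List.length_append] at e1
      rw [Polynomial.eval_add, Polynomial.eval_mul, Polynomial.eval_C, hpN, hpL]
      omega
    · have h8 : φ ∈ π ++ (Θ :: π0) := by
        rw [hAB]
        exact List.mem_append_right _ hφ
      rcases List.mem_append.1 h8 with h | h
      · exact (h3 φ h).1.mono (by omega) true
      · exact (hc1 φ h).mono (by omega) true

end Pool.Agent.J6H49.BC
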