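import Pool.Agent.J6H49.BC.Sim

/-!
# Assembly of the short proofs
-/

set_option autoImplicit false

namespace Pool.Agent.J6H49.BC

open Pool.Agent.TH672 (Fm LogK)
open Pool.Agent.TH636.BC (Fml Step IsProof str strs Cx inst)

variable {Γ G : List Fml} {K L : ℕ}

/-! ### more on bounded proofs -/

theorem Dv.monoK {K' N : ℕ} {φ : Fml} (h : Dv Γ K L G N φ) (hK : K ≤ K') :
    Dv Γ K' L G N φ := by
  obtain ⟨π, h1, h2, h3, h4⟩ := h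
  exact ⟨π, h1, h2, fun ψ hψ => ⟨(h3 ψ hψ).1.mono hK, (h3 ψ hψ).2⟩, h4⟩

/-- cutting a list of available formulas -/
theorem Dv.cuts {M N : ℕ} {φ : Fml} : ∀ {G' : List Fml}, (∀ ψ ∈ G', Dv Γ K L G M ψ) →
    Dv Γ K L (G' ++ G) N φ → Dv Γ K L G (G'.length * M + N) φ
  | [], _, h => by simpa using h
  | g :: G', hG, h => by
    have h1 : Dv Γ K L (G' ++ G) M g :=
      (hG g List.mem_cons_self).weakG fun ψ hψ => List.mem_append_right _ hψ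
    have h2 := h1.cut h
    have h3 := Dv.cuts (fun ψ hψ => hG ψ (List.mem_cons_of_mem _ hψ)) h2
    refine h3.mono ?_
    rw [List.length_cons, Nat.add_mul G'.length 1, Nat.one_mul]
    omega

/-- natural deduction with available formulas that are derivable -/
theorem ND.dv {c s l N M : ℕ} {φ : Fml} (hK : c + 2 ≤ K)
    (hL : 1000 * ((l + 1) * (s + 4) + 1) ≤ L) {G' : List Fml}
    (h : ND Γ c s l (G' ++ G) N [] φ) (hG : ∀ ψ ∈ G', Dv Γ K L G M ψ) :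
    Dv Γ K L G (G'.length * M + N * (100 * (l + 1) ^ 2)) φ := by
  have h1 : Dv Γ K L (G' ++ G) _ (imps [] φ) := (sim rfl hL h).monoK hK
  exact Dv.cuts hG h1

/-! ### polynomial bounds -/

/-- a polynomial function -/
def PF (f : ℕ → ℕ) : Prop := ∃ p : Polynomial ℕ, ∀ n, p.eval n = f n

theorem PF.const (a : ℕ) : PF fun _ => a := ⟨Polynomial.C a, fun n => by simp⟩
theorem PF.id : PF fun n => n := ⟨Polynomial.X, fun n => by simp⟩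
theorem PF.add {f g : ℕ → ℕ} (hf : PF f) (hg : PF g) : PF fun n => f n + g n := by
  obtain ⟨p, hp⟩ := hf
  obtain ⟨q, hq⟩ := hg
  exact ⟨p + q, fun n => by rw [Polynomial.eval_add, hp, hq]⟩
theorem PF.mul {f g : ℕ → ℕ} (hf : PF f) (hg : PF g) : PF fun n => f n * g n := by
  obtain ⟨p, hp⟩ := hf
  obtain ⟨q, hq⟩ := hg
  exact ⟨p * q, fun n => by rw [Polynomial.eval_mul, hp, hq]⟩
theorem PF.pow {f : ℕ → ℕ} (hf : PF f) (e : ℕ) : PF fun n => f n ^ e := by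
  obtain ⟨p, hp⟩ := hf
  exact ⟨p ^ e, fun n => by rw [Polynomial.eval_pow, hp]⟩

/-! ### the statement of the substitution lemmas -/

/-- substitutions -/
structure SL : Prop where
  a1 : ∀ k r j, j + 1 < r → (FF (PP k) (DD (r - 1))).subst (dn j) (dn (r - 1)) =
    FF (PP k) (DJ r j) ∧ (FF (PP k) (DD (r - 1))).FreeFor (dn (r - 1)) (dn j)
  a2 : ∀ k r j, j + 1 = r → FF (PP k) (DD (r - 1)) = FF (PP k) (DJ r j)
  a3 : ∀ k r j, j < r → (FF (PP (k + 1)) (DJ r j)).subst (qn k) (dn j) = FF (PJ k j) (DJ r j) ∧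
    (FF (PP (k + 1)) (DJ r j)).FreeFor (dn j) (qn k)
  a4 : ∀ (Y : Fml), (∀ x, Y.Free x → x = 3) → ∀ i j,
    (imps (chain (j + 1) ++ [Fm.eq 0 (dn (j + 1))]) (Rr Y i)).subst (dn (j + 1)) 1 =
      imps (chain j ++ [Fm.succ (dn j) 1, Fm.eq 0 1]) (Rr Y i) ∧
    (imps (chain (j + 1) ++ [Fm.eq 0 (dn (j + 1))]) (Rr Y i)).FreeFor 1 (dn (j + 1))
  a5 : ∀ (Y : Fml), (∀ x, Y.Free x → x = 3) → ∀ n,
    (imps (chain 0 ++ [Fm.eq 0 (dn 0)]) (Rr Y n)).subst (dn 0) 0 =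
      imps [Fm.zero 0, Fm.eq 0 0] (Rr Y n) ∧
    (imps (chain 0 ++ [Fm.eq 0 (dn 0)]) (Rr Y n)).FreeFor 0 (dn 0)

/-- sizes and complexities -/
def ZL : Prop := ∃ C0 : ℕ, ∀ C, C0 ≤ C → ∀ n k r, k + r ≤ n + 1 → W 5 (C * (n + 1) ^ 3) (FF (PP k) (DD r)) ∧
  (∀ j < r, W 5 (C * (n + 1) ^ 3) (FF (PP k) (DJ r j)) ∧
    W 5 (C * (n + 1) ^ 3) (FF (PJ k j) (DJ r j)))

/-- sizes and complexities -/
def ZL' : Prop := ∀ (Y : Fml) (c : ℕ), (∀ x, Y.Free x → x = 3) → 5 ≤ c → BB c Y →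
  ∃ C0 : ℕ, ∀ C, C0 ≤ C → ∀ n i j, i + j ≤ n →
    W (c + 2) (C * (n + 1) ^ 3) (imps (chain j ++ [Fm.eq 0 (dn j)]) (Rr Y i)) ∧
    W (c + 2) (C * (n + 1) ^ 3) (imps (chain j ++ [Fm.succ (dn j) 1, Fm.eq 0 1]) (Rr Y i)) ∧
    W (c + 2) (C * (n + 1) ^ 3) (imps [Fm.zero 0, Fm.eq 0 0] (Rr Y i))

end Pool.Agent.J6H49.BC
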