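import Pool.Agent.J6H49.BC.Asm
import Pool.Agent.J6H49.BC.Stm4

/-!
# Assembly of the short proofs, dyadic numerals
-/

set_option autoImplicit false

namespace Pool.Agent.J6H49.BC

open Pool.Agent.TH672 (Fm LogK num digits)
open Pool.Agent.TH636.BC (Fml Step IsProof str strs Cx inst)
open Pool.Agent.TH197.J1545 (num_snoc num_app digits_zero digits_odd digits_even)

theorem num_digits (n : ℕ) : num (digits n) = n := by
  induction n using Nat.strong_induction_on with
  | _ n ih =>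
    rcases Nat.eq_zero_or_pos n with h | h
    · subst h
      rw [digits_zero]
      rfl
    · rcases Nat.even_or_odd' (n - 1) with ⟨m, hm | hm⟩
      · obtain rfl : n = 2 * m + 1 := by omega
        rw [digits_odd, num_snoc, ih m (by omega)]
        simp
      · obtain rfl : n = 2 * m + 2 := by omega
        rw [digits_even, num_snoc, ih m (by omega)]
        simp

theorem num_le (u w : List Bool) : num u ≤ num (u ++ w) := by
  rw [num_app]
  have : 1 ≤ 2 ^ w.length := Nat.one_le_two_pow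
  nlinarith

theorem length_le_num (w : List Bool) : w.length ≤ num w := by
  induction w using List.reverseRecOn with
  | nil => exact Nat.zero_le _
  | append_singleton w b ih =>
    rw [num_snoc, List.length_append, List.length_singleton]
    split_ifs <;> omega

section

variable {C n s l K L q c : ℕ} (p : Par C n s l K L q c) {Y : Fml}

include p in
/-- the digits -/
theorem digit_dv
    (h3 : ∀ (v : ℕ) (b : Bool) (w : List Bool), w.length ≤ n →
      (2 * v + if b then 2 else 1) ≤ n → ∀ G : List Fml,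
      imps (chain n ++ [.eq 3 (dn (2 * v + if b then 2 else 1))]) (w.foldr (digitD 3) Y) ∈ G →
      ND WB (c + 4) s l G s [] (imps (chain n ++ [.eq 3 (dn v)]) ((b :: w).foldr (digitD 3) Y)))
    {G : List Fml} {N : ℕ}
    (h0 : Dv WB K L G N (imps (chain n ++ [.eq 3 (dn n)]) Y)) :
    ∀ w u : List Bool, u ++ w = digits n →
    Dv WB K L G (N + w.length * (s * q))
      (imps (chain n ++ [.eq 3 (dn (num u))]) (w.foldr (digitD 3) Y))
  | [], u, hu => by
    rw [List.append_nil] at hu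
    rw [hu, num_digits]
    simpa using h0
  | b :: w, u, hu => by
    have hK := p.hK
    have hu' : (u ++ [b]) ++ w = digits n := by rw [← hu]; simp
    have h1 := digit_dv h3 h0 w (u ++ [b]) hu'
    rw [num_snoc] at h1
    have e1 : num (u ++ [b]) ≤ n := by
      have := num_le (u ++ [b]) w
      rw [hu', num_digits] at this
      exact this
    rw [num_snoc] at e1
    have e2 : w.length ≤ n := by
      have := length_le_num (digits n)
      rw [← hu', num_digits' hu', List.length_append] at this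
      omega
    have h2 := (h3 (num u) b w e2 e1
      ([imps (chain n ++ [.eq 3 (dn (2 * num u + if b then 2 else 1))])
        (w.foldr (digitD 3) Y)] ++ G) (by simp)).dv (K := K) (by omega) p.hL (fun ψ hψ => by
      rw [List.mem_singleton.1 hψ]; exact h1)
    rw [← p.hq, List.length_singleton, Nat.one_mul] at h2
    refine h2.mono ?_
    rw [List.length_cons, Nat.add_mul w.length 1, Nat.one_mul]
    omega
where
  num_digits' {u : List Bool} {b : Bool} {w : List Bool} {n : ℕ}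
      (hu : (u ++ [b]) ++ w = digits n) : num ((u ++ [b]) ++ w) = n := by
    rw [hu, num_digits]

include p in
/-- the elimination of the chain -/
theorem chain_dv
    (h5 : ∀ j < n, ∀ G : List Fml, imps (chain (j + 1)) (instD 3 n Y) ∈ G →
      ND WB (c + 4) s l G s [] (imps (chain j) (instD 3 n Y)))
    {G : List Fml} {N : ℕ} (h0 : Dv WB K L G N (imps (chain n) (instD 3 n Y))) :
    ∀ i : ℕ, i ≤ n → Dv WB K L G (N + i * (s * q)) (imps (chain (n - i)) (instD 3 n Y))
  | 0, _ => by simpa using h0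
  | i + 1, hi => by
    have hK := p.hK
    have h1 := chain_dv h5 h0 i (by omega)
    obtain ⟨j, hj⟩ : ∃ j, j = n - (i + 1) := ⟨_, rfl⟩
    have e : n - i = j + 1 := by omega
    rw [e] at h1
    rw [← hj]
    have h2 := (h5 j (by omega) ([imps (chain (j + 1)) (instD 3 n Y)] ++ G) (by simp)).dv
      (K := K) (by omega) p.hL (fun ψ hψ => by rw [List.mem_singleton.1 hψ]; exact h1)
    rw [← p.hq, List.length_singleton, Nat.one_mul] at h2
    refine h2.mono ?_
    rw [Nat.add_mul i 1, Nat.one_mul]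
    omega

end

/-- short proofs of `instD 3 n Y` -/
theorem shortD (sl : SL) (zl : ZL) (h2a : D2aT) (h2b : D2bT) (h3a : D3aT)
    (g2 : G2T) (g3 : G3T) (g4 : G4T) (g5 : G5T) (Y : Fml) (hY : ∀ x, Y.Free x → x = 3)
    (c : ℕ) (hc : 9 ≤ c) (hYc : BB c Y) :
    ∃ N L : ℕ → ℕ, PF N ∧ PF L ∧
      ∀ n, Dv WB (c + 6) (L n) [Fm.all 3 (XX.imp Y)] (N n) (instD 3 n Y) := by
  obtain ⟨C1, hC1⟩ := zl
  obtain ⟨C3, hC3⟩ := h2a
  obtain ⟨C4, hC4⟩ := h2b
  obtain ⟨C5, hC5⟩ := h3a
  obtain ⟨C6, hC6⟩ := g2 Y c hY hc hYc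
  obtain ⟨C7, hC7⟩ := g3 Y c hY hc hYc
  obtain ⟨C8, hC8⟩ := g4 Y c hY hc hYc
  obtain ⟨C9, hC9⟩ := g5 Y c hY hc hYc
  obtain ⟨C, hC⟩ : ∃ C, C = C1 + C3 + C4 + C5 + C6 + C7 + C8 + C9 + 1 := ⟨_, rfl⟩
  have pfs : PF fun n => C * (n + 1) ^ 3 := (PF.const C).mul ((PF.id.add (PF.const 1)).pow 3)
  have pfl : PF fun n => C * (n + 1) := (PF.const C).mul (PF.id.add (PF.const 1))
  have pfL : PF fun n => 1000 * ((C * (n + 1) + 1) * (C * (n + 1) ^ 3 + 4) + 1) :=
    (PF.const 1000).mul (((pfl.add (PF.const 1)).mul (pfs.add (PF.const 4))).add (PF.const 1))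
  have pfq : PF fun n => 100 * (C * (n + 1) + 1) ^ 2 :=
    (PF.const 100).mul ((pfl.add (PF.const 1)).pow 2)
  have pf1 : PF fun n => C * (n + 1) ^ 3 * (100 * (C * (n + 1) + 1) ^ 2) := pfs.mul pfq
  have pf2 : PF fun n => C * (n + 1) ^ 3 * (100 * (C * (n + 1) + 1) ^ 2) +
      n * ((n + 1) * 6 + ((n + 1) * (C * (n + 1) ^ 3) + C * (n + 1) ^ 3) *
        (100 * (C * (n + 1) + 1) ^ 2)) :=
    pf1.add (PF.id.mul (((PF.id.add (PF.const 1)).mul (PF.const 6)).add
      ((((PF.id.add (PF.const 1)).mul pfs).add pfs).mul pfq)))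
  refine ⟨fun n => (C * (n + 1) ^ 3 * (100 * (C * (n + 1) + 1) ^ 2) +
      n * ((n + 1) * 6 + ((n + 1) * (C * (n + 1) ^ 3) + C * (n + 1) ^ 3) *
        (100 * (C * (n + 1) + 1) ^ 2))) +
      C * (n + 1) ^ 3 * (100 * (C * (n + 1) + 1) ^ 2) +
      C * (n + 1) ^ 3 * (100 * (C * (n + 1) + 1) ^ 2) +
      n * (C * (n + 1) ^ 3 * (100 * (C * (n + 1) + 1) ^ 2)) +
      C * (n + 1) ^ 3 * (100 * (C * (n + 1) + 1) ^ 2) +
      n * (C * (n + 1) ^ 3 * (100 * (C * (n + 1) + 1) ^ 2)) +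
      C * (n + 1) ^ 3 * (100 * (C * (n + 1) + 1) ^ 2),
    _, ((((((pf2.add pf1).add pf1).add (PF.id.mul pf1)).add pf1).add (PF.id.mul pf1)).add pf1),
    pfL, fun n => ?_⟩
  obtain ⟨s, hs⟩ : ∃ s, s = C * (n + 1) ^ 3 := ⟨_, rfl⟩
  obtain ⟨l, hl⟩ : ∃ l, l = C * (n + 1) := ⟨_, rfl⟩
  obtain ⟨L, hL⟩ : ∃ L, L = 1000 * ((l + 1) * (s + 4) + 1) := ⟨_, rfl⟩
  obtain ⟨q, hq⟩ : ∃ q, q = 100 * (l + 1) ^ 2 := ⟨_, rfl⟩
  obtain ⟨K, hK⟩ : ∃ K, K = c + 6 := ⟨_, rfl⟩
  have p : Par C n s l K L q c := ⟨hs, hl, by rw [hL], by rw [hq], hK, hc, by omega⟩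
  have g1 := hC1 C (by omega) n
  have g3 := hC3 C (by omega) n
  have g4 := hC4 C (by omega) n
  have g5 := hC5 C (by omega) n
  have g6 := hC6 C (by omega) n
  have g7 := hC7 C (by omega) n
  have g8 := hC8 C (by omega) n
  have g9 := hC9 C (by omega) n
  clear pfs pfl pfL pfq pf1 pf2
  simp only [← hs, ← hl] at g1 g3 g4 g5 g6 g7 g8 g9 ⊢
  simp only [← hL, ← hq]
  rw [← hK]
  obtain ⟨Θ, hΘ⟩ : ∃ Θ, Θ = Fm.all 3 (XX.imp Y) := ⟨_, rfl⟩
  have hKc := p.hK
  have a1 := ind_dv p sl g1 g3 g4 [Θ] n le_rfl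
  rw [Nat.sub_self] at a1
  have a2 := (g5 ([FF [] (DD n)] ++ [Θ]) (by simp)).dv (K := K) (by omega) p.hL (fun ψ hψ => by
    rw [List.mem_singleton.1 hψ]; exact a1)
  rw [← p.hq, List.length_singleton, Nat.one_mul] at a2
  have a3 := (g6 ([imps (chain n ++ [Wn (dn n)]) .bot] ++ [Θ]) (by simp) (by
    rw [← hΘ]; simp)).dv (K := K) (by omega) p.hL (fun ψ hψ => by
    rw [List.mem_singleton.1 hψ]; exact a2)
  rw [← p.hq, List.length_singleton, Nat.one_mul] at a3
  have a4 := digit_dv p g7 a3 (digits n) [] rfl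
  have e0 : num [] = 0 := rfl
  rw [e0] at a4
  have hlen : (digits n).length ≤ n := by
    have := length_le_num (digits n)
    rwa [num_digits] at this
  have a4' := a4.mono (Nat.add_le_add_left (Nat.mul_le_mul_right (s * q) hlen) _)
  have a5 := (g8 ([imps (chain n ++ [.eq 3 (dn 0)]) ((digits n).foldr (digitD 3) Y)] ++ [Θ])
    (by simp)).dv (K := K) (by omega) p.hL (fun ψ hψ => by
    rw [List.mem_singleton.1 hψ]; exact a4')
  rw [← p.hq, List.length_singleton, Nat.one_mul] at a5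
  have a6 := chain_dv p g9.1 a5 n le_rfl
  rw [Nat.sub_self] at a6
  have a7 := (g9.2 ([imps (chain 0) (instD 3 n Y)] ++ [Θ]) (by simp)).dv (K := K)
    (by omega) p.hL (fun ψ hψ => by rw [List.mem_singleton.1 hψ]; exact a6)
  rw [← p.hq, List.length_singleton, Nat.one_mul] at a7
  rw [hΘ] at a7
  exact a7

end Pool.Agent.J6H49.BC
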