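import Pool.Agent.J6H49.BC.Asm

/-!
# Short proofs that not all colours are less than `n`
-/

set_option autoImplicit false

namespace Pool.Agent.J6H49.BC

open Pool.Agent.TH672 (Fm LogK)
open Pool.Agent.TH636.BC (Fml Step IsProof str strs Cx inst)

/-- short proofs that not all colours are less than `n`, from the axioms `WB` -/
theorem shortW (sl : SL) (zl : ZL) (h2a : D2aT) (h2b : D2bT) (h3a : D3aT) :
    ∃ N L : ℕ → ℕ, PF N ∧ PF L ∧
      ∀ n, Dv WB 15 (L n) [] (N n) (imps (chain n ++ [Wn (dn n)]) .bot) := by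
  obtain ⟨C1, hC1⟩ := zl
  obtain ⟨C3, hC3⟩ := h2a
  obtain ⟨C4, hC4⟩ := h2b
  obtain ⟨C5, hC5⟩ := h3a
  obtain ⟨C, hC⟩ : ∃ C, C = C1 + C3 + C4 + C5 + 1 := ⟨_, rfl⟩
  have pfs : PF fun n => C * (n + 1) ^ 3 := (PF.const C).mul ((PF.id.add (PF.const 1)).pow 3)
  have pfl : PF fun n => C * (n + 1) := (PF.const C).mul (PF.id.add (PF.const 1))
  have pfL : PF fun n => 1000 * ((C * (n + 1) + 1) * (C * (n + 1) ^ 3 + 4) + 1) :=
    (PF.const 1000).mul (((pfl.add (PF.const 1)).mul (pfs.add (PF.const 4))).add (PF.const 1))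
  have pfq : PF fun n => 100 * (C * (n + 1) + 1) ^ 2 :=
    (PF.const 100).mul ((pfl.add (PF.const 1)).pow 2)
  have pf1 : PF fun n => C * (n + 1) ^ 3 * (100 * (C * (n + 1) + 1) ^ 2) := pfs.mul pfq
  have pf2 : PF fun n => C * (n + 1) ^ 3 * (100 * (C * (n + 1) + 1) ^ 2) +
      n * ((n + 1) * 6 + ((n + 1) * (C * (n + 1) ^ 3) + C * (n + 1) ^ 3) *
        (100 * (C * (n + 1) + 1) ^ 2)) :=
    pf1.add (PF.id.mul (((PF.id.add (PF.const 1)).mul (PF.const 6)).add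
      ((((PF.id.add (PF.const 1)).mul pfs).add pfs).mul pfq)))
  refine ⟨fun n => (C * (n + 1) ^ 3 * (100 * (C * (n + 1) + 1) ^ 2) +
      n * ((n + 1) * 6 + ((n + 1) * (C * (n + 1) ^ 3) + C * (n + 1) ^ 3) *
        (100 * (C * (n + 1) + 1) ^ 2))) +
      C * (n + 1) ^ 3 * (100 * (C * (n + 1) + 1) ^ 2), _, pf2.add pf1, pfL, fun n => ?_⟩
  obtain ⟨s, hs⟩ : ∃ s, s = C * (n + 1) ^ 3 := ⟨_, rfl⟩
  obtain ⟨l, hl⟩ : ∃ l, l = C * (n + 1) := ⟨_, rfl⟩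
  obtain ⟨L, hL⟩ : ∃ L, L = 1000 * ((l + 1) * (s + 4) + 1) := ⟨_, rfl⟩
  obtain ⟨q, hq⟩ : ∃ q, q = 100 * (l + 1) ^ 2 := ⟨_, rfl⟩
  have p : Par C n s l 15 L q 9 := ⟨hs, hl, by rw [hL], by rw [hq], rfl, le_rfl, by omega⟩
  have g1 := hC1 C (by omega) n
  have g3 := hC3 C (by omega) n
  have g4 := hC4 C (by omega) n
  have g5 := hC5 C (by omega) n
  clear pfs pfl pfL pfq pf1 pf2
  simp only [← hs, ← hl] at g1 g3 g4 g5 ⊢
  simp only [← hL, ← hq]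
  have a1 := ind_dv p sl g1 g3 g4 [] n le_rfl
  rw [Nat.sub_self] at a1
  have a2 := (g5 ([FF [] (DD n)] ++ []) (by simp)).dv (K := 15) (by omega) p.hL (fun ψ hψ => by
    rw [List.mem_singleton.1 hψ]; exact a1)
  rw [← p.hq, List.length_singleton, Nat.one_mul] at a2
  exact a2

end Pool.Agent.J6H49.BC
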