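import Pool.Agent.J6H49.BC.Stm2

/-!
# The two halves of the step of the induction
-/

set_option autoImplicit false

namespace Pool.Agent.J6H49.BC

open Pool.Agent.TH672 (Fm LogK)
open Pool.Agent.TH636.BC (Fml blk inst lt col)

/-- the pairs `u_k`, `v` with `v` beyond `g_0` have a colour -/
def MC (k : ℕ) : Fml := .all 21 (.imp (hi (gn 0) 21) (.ex 23 (col (pn k) 21 23)))

/-- the `v` in `S` such that `u_k`, `v` has the colour `d_j` are not beyond `b_j` -/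
def EJ (k j : ℕ) : Fml := .all 17 (.imp (hi (bn j) 17) (imps (cols (PJ k j) 17) .bot))

/-- what lies beyond `g_(j+1)` lies beyond `g_j` and `b_j` -/
def MJ (j : ℕ) : Fml := .all 21 (.imp (hi (gn (j + 1)) 21) (.and (hi (gn j) 21) (hi (bn j) 21)))

/-- the context after `i` steps -/
def G3 (k r i : ℕ) : List Fml :=
  G2 k r ++ [MC k] ++ (List.range i).flatMap fun j => [EJ k j, MJ j]

/-- MODULE D2b1: the choice of the bounds. -/
def D2b1T : Prop := ∃ C0 : ℕ, ∀ C, C0 ≤ C → ∀ n k r N M : ℕ, k + r ≤ n → ∀ G : List Fml,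
  (∀ j < r, ND WB 9 (C * (n + 1) ^ 3) (C * (n + 1)) G N (G2 k r) (Fm.neg (Kf (PJ k j)))) →
    ND WB 9 (C * (n + 1) ^ 3) (C * (n + 1)) G M (G3 k r r) .bot →
    ND WB 9 (C * (n + 1) ^ 3) (C * (n + 1)) G (r * N + M + C0 * (n + 1) ^ 2) [] (FF (PP k) (DD r))

/-- MODULE D2b2: the contradiction. -/
def D2b2T : Prop := ∃ C0 : ℕ, ∀ C, C0 ≤ C → ∀ n k r : ℕ, k + r ≤ n → ∀ G : List Fml,
  ND WB 9 (C * (n + 1) ^ 3) (C * (n + 1)) G (C0 * (n + 1) ^ 2) (G3 k r r) .bot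

/-- the two halves give module D2b -/
theorem d2b_of (h1 : D2b1T) (h2 : D2b2T) : D2bT := by
  obtain ⟨C1, h1⟩ := h1
  obtain ⟨C2, h2⟩ := h2
  refine ⟨C1 + C2, fun C hC n k r N hkr G hj => ?_⟩
  refine (h1 C (by omega) n k r N _ hkr G hj (h2 C (by omega) n k r hkr G)).up ?_
  have h3 : (n + 1) ^ 2 ≤ (n + 1) ^ 3 := Nat.pow_le_pow_right (by omega) (by norm_num)
  have h4 : (C1 + C2) * (n + 1) ^ 2 ≤ C * (n + 1) ^ 3 := Nat.mul_le_mul hC h3
  rw [Nat.add_mul] at h4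
  omega

end Pool.Agent.J6H49.BC
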