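import Pool.Agent.J6H49.BC.AsmD

/-!
# The final assembly
-/

set_option autoImplicit false

namespace Pool.Agent.J6H49.BC

open Pool.Agent.TH672 (Fm Str)
open Pool.Agent.TH636.BC (Fml Step IsProof str strs Cx inst Numerates robinson Proves conAt con
  code)

/-- short proofs in the finite language, from short bounded proofs and the fixed proof -/
theorem finish {A : List Fml} (hA : ∀ φ ∈ A, InL φ) (hWB : ∀ φ ∈ WB, φ ∈ A)
    (tr : (∀ Γ π : List Fml, (∀ φ ∈ Γ, InL φ) → IsProof Γ π → IsProof Γ (π.map trL)) ∧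
      (∀ φ, InL (trL φ)) ∧ (∀ φ, InL φ → trL φ = φ) ∧ (∀ φ, sz (trL φ) ≤ sz φ) ∧
      (∀ s k φ, Cx s k φ → Cx s k (trL φ)))
    {Θ : Fml} {π0 : List Fml} (hπ0 : IsProof A (Θ :: π0)) {K : ℕ} {N L : ℕ → ℕ}
    (hN : PF N) (hL : PF L) (Z : ℕ → Fml) (hZ : ∀ n, InL (Z n))
    (h : ∀ n, Dv WB K (L n) [Θ] (N n) (Z n)) :
    ∃ (k : ℕ) (p : Polynomial ℕ), ∀ k' ≥ k, ∀ n : ℕ, ∃ π, IsProof A (Z n :: π) ∧
      (strs (Z n :: π)).length ≤ p.eval n ∧ ∀ φ ∈ Z n :: π, Cx true k' φ ∧ InL φ := by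
  obtain ⟨pN, hpN⟩ := hN
  obtain ⟨pL, hpL⟩ := hL
  obtain ⟨t1, t2, t3, t4, t5⟩ := tr
  obtain ⟨c1, hc1⟩ := exists_bbs (Θ :: π0)
  refine ⟨K + c1, pN * pL + Polynomial.C (strs (Θ :: π0)).length, fun k' hk' n => ?_⟩
  obtain ⟨π, h1, h2, h3, h4⟩ := h n
  have h5 : Seg A (Θ :: π0) π :=
    seg_mono (fun ψ hψ => by rw [List.mem_singleton.1 hψ]; exact List.mem_cons_self)
      (seg_axioms hWB h1)
  have h6 := seg_proof hπ0 h5
  have h7 : Z n ∈ π ++ (Θ :: π0) := by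
    rcases List.mem_append.1 h4 with h | h
    · exact List.mem_append_left _ h
    · rw [List.mem_singleton.1 h]
      simp
  obtain ⟨A', B, hAB⟩ := List.append_of_mem h7
  rw [hAB] at h6
  have h9 := t1 A _ hA (isProof_suffix h6)
  rw [List.map_cons, t3 _ (hZ n)] at h9
  have hmap : ∀ l : List Fml, (strs (l.map trL)).length ≤ (strs l).length := by
    intro l
    induction l with
    | nil => exact le_rfl
    | cons a l ih =>
      have e1 : strs (List.map trL (a :: l)) = str (trL a) ++ strs (l.map trL) := rfl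
      have e2 : strs (a :: l) = str a ++ strs l := rfl
      rw [e1, e2, List.length_append, List.length_append]
      have := t4 a
      unfold sz at this
      omega
  refine ⟨B.map trL, h9, ?_, fun φ hφ => ?_⟩
  · have e0 : (strs (Z n :: B.map trL)).length ≤ (strs (Z n :: B)).length := by
      have e1 : strs (Z n :: B.map trL) = str (Z n) ++ strs (B.map trL) := rfl
      have e2 : strs (Z n :: B) = str (Z n) ++ strs B := rfl
      rw [e1, e2, List.length_append, List.length_append]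
      have := hmap B
      omega
    have e1 : (strs (Z n :: B)).length ≤ (strs (π ++ (Θ :: π0))).length := by
      rw [hAB, strs_append', List.length_append]
      omega
    have e2 : (strs π).length ≤ N n * L n :=
      (strs_le fun ψ hψ => (h3 ψ hψ).2).trans (Nat.mul_le_mul_right _ h2)
    rw [strs_append', List.length_append] at e1
    rw [Polynomial.eval_add, Polynomial.eval_mul, Polynomial.eval_C, hpN, hpL]
    omega
  · have h8 : ∃ ψ ∈ π ++ (Θ :: π0), φ = trL ψ := by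
      rcases List.mem_cons.1 hφ with rfl | h
      · exact ⟨_, h7, (t3 _ (hZ n)).symm⟩
      · obtain ⟨ψ, hψ, rfl⟩ := List.mem_map.1 h
        exact ⟨ψ, by rw [hAB]; exact List.mem_append_right _ (List.mem_cons_of_mem _ hψ), rfl⟩
    obtain ⟨ψ, hψ, rfl⟩ := h8
    refine ⟨t5 _ _ _ ?_, t2 _⟩
    rcases List.mem_append.1 hψ with h | h
    · exact (h3 ψ h).1.mono (by omega) true
    · exact (hc1 ψ h).mono (by omega) true

/-- The main statement. -/
def Main2 : Prop := (∃ P : Fml, Numerates P) ∧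
  ∀ P : Fml, Numerates P →
    (∀ (R : ℕ → ℕ → ℕ → ℕ → ℕ → Prop) (Γ : List Fml) (n : ℕ) (v : ℕ → ℕ),
      (Fm.Sat (expansion R) (conAt P Γ n) v ↔ ¬ Proves Γ n .bot) ∧
      (Fm.Sat (expansion R) (conAtD P Γ n) v ↔ ¬ Proves Γ n .bot)) ∧
    ∃ (A : List Fml) (k : ℕ) (p : Polynomial ℕ),
      (∀ φ ∈ robinson, φ ∈ A) ∧ (∀ φ ∈ A, φ.Closed ∧ InL φ) ∧ (∀ m, ¬ Proves A m .bot) ∧
      (∃ R, ∀ φ ∈ A, ∀ v : ℕ → ℕ, Fm.Sat (expansion R) φ v) ∧
      ∀ n : ℕ,
        (∃ π, IsProof A (conAt P A n :: π) ∧ (strs (conAt P A n :: π)).length ≤ p.eval n ∧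
          ∀ φ ∈ conAt P A n :: π, Cx true k φ ∧ InL φ) ∧
        (∃ π, IsProof A (conAtD P A n :: π) ∧ (strs (conAtD P A n :: π)).length ≤ p.eval n ∧
          ∀ φ ∈ conAtD P A n :: π, Cx true k φ ∧ InL φ)

/-- The main theorem from the modules. -/
theorem main2 (hnum : NumT) (hcons : ConsT) (hfix : FixT) (hfree : FreeT) (htrue : TrueN)
    (htc : TrueConT) (hg6 : G6T) (htr : TrT) (sl : SL) (zl : ZL) (zl' : ZL') (h2a : D2aT)
    (h2b : D2bT) (h3a : D3aT) (h3b1 : D3b1T) (h3b2 : D3b2T) (h3b3 : D3b3T) (g2 : G2T)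
    (g3 : G3T) (g4 : G4T) (g5 : G5T) : Main2 := by
  refine ⟨hnum, fun P hP => ⟨fun R Γ n v => htc P hP R Γ n v, ?_⟩⟩
  obtain ⟨t1, t2, t3, t4, t5, t6⟩ := htr
  obtain ⟨l1, l2, l3⟩ := t6 P hP
  obtain ⟨hcl, π0, hπ0⟩ := hfix P hP
  obtain ⟨hf6, π1, hπ1⟩ := hg6 P hP
  have hWB : ∀ φ ∈ WB, φ ∈ RA P := fun ψ hψ => List.mem_cons_of_mem _ hψ
  obtain ⟨c0, hc0⟩ := exists_bb (con P (RA P))
  obtain ⟨N, L, hN, hL, hdv⟩ := shortY sl zl zl' h2a h2b h3a h3b1 h3b2 h3b3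
    (con P (RA P)) (hfree P hP) (c0 + 9) (by omega) (hc0.mono (by omega))
  obtain ⟨c1, hc1⟩ := exists_bb (conD P (RA P))
  obtain ⟨N', L', hN', hL', hdv'⟩ := shortD sl zl h2a h2b h3a g2 g3 g4 g5
    (conD P (RA P)) hf6 (c1 + 9) (by omega) (hc1.mono (by omega))
  obtain ⟨k, p, h⟩ := finish l1 hWB ⟨t1, t2, t3, t4, t5⟩ hπ0 hN hL
    (fun n => conAt P (RA P) n) l2 hdv
  obtain ⟨k', p', h'⟩ := finish l1 hWB ⟨t1, t2, t3, t4, t5⟩ hπ1 hN' hL'
    (fun n => conAtD P (RA P) n) l3 hdv'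
  refine ⟨RA P, k + k', p + p', ?_, fun φ hφ => ⟨hcl φ hφ, l1 φ hφ⟩, hcons P hP,
    ⟨stdR, fun φ hφ v => htrue P hP φ hφ v⟩, fun n => ⟨?_, ?_⟩⟩
  · intro φ hφ
    simp only [RA, WB, List.mem_cons, List.mem_append]
    tauto
  · obtain ⟨π, h1, h2, h3⟩ := h (k + k') (by omega) n
    exact ⟨π, h1, h2.trans (by rw [Polynomial.eval_add]; omega), h3⟩
  · obtain ⟨π, h1, h2, h3⟩ := h' (k + k') (by omega) n
    exact ⟨π, h1, h2.trans (by rw [Polynomial.eval_add]; omega), h3⟩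

end Pool.Agent.J6H49.BC
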