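import Pool.Agent.J6H49.BC.Stm

/-!
# Bounded Hilbert proofs

Segments of proofs with a bounded number of lines, each of which has bounded length and bounded
quantifier complexity.
-/

set_option autoImplicit false

namespace Pool.Agent.J6H49.BC

open Pool.Agent.TH672 (Fm varStr LogK ReplK Sw)
open Pool.Agent.TH636.BC (Fml Step IsProof str strs Cx)

/-! ### sizes and complexity -/

/-- the length of the string -/
def sz (φ : Fml) : ℕ := (str φ).length

theorem len_varStr (x : ℕ) : (varStr x).length = x + 1 := by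
  simp [varStr]

@[simp] theorem sz_bot : sz (.bot : Fml) = 4 := rfl

@[simp] theorem sz_eq (x y : ℕ) : sz (.eq x y : Fml) = x + y + 6 := by
  simp only [sz, str, List.length_append, len_varStr, List.length_cons, List.length_nil]; omega

@[simp] theorem sz_zero (x : ℕ) : sz (.zero x : Fml) = x + 5 := by
  simp only [sz, str, List.length_append, len_varStr, List.length_cons, List.length_nil]; omega

@[simp] theorem sz_succ (x y : ℕ) : sz (.succ x y : Fml) = x + y + 6 := by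
  simp only [sz, str, List.length_append, len_varStr, List.length_cons, List.length_nil]; omega

@[simp] theorem sz_op (i a b c d : ℕ) : sz (.op i a b c d : Fml) = i + a + b + c + d + 9 := by
  simp only [sz, str, List.length_append, len_varStr, List.length_cons, List.length_nil]; omega

@[simp] theorem sz_imp (φ ψ : Fml) : sz (φ.imp ψ) = sz φ + sz ψ + 4 := by
  simp only [sz, str, List.length_append, List.length_cons, List.length_nil]; omega

@[simp] theorem sz_all (x : ℕ) (φ : Fml) : sz (.all x φ) = sz φ + x + 5 := by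
  simp only [sz, str, List.length_append, len_varStr, List.length_cons, List.length_nil]; omega

theorem sz_pos (φ : Fml) : 4 ≤ sz φ := by
  cases φ <;> simp only [sz, str, List.length_append, len_varStr, List.length_cons,
    List.length_nil] <;> omega

/-- both `Σ_c` and `Π_c` -/
def BB (c : ℕ) (φ : Fml) : Prop := ∀ s, Cx s c φ

theorem BB.imp {c : ℕ} {φ ψ : Fml} (h : BB c φ) (h' : BB c ψ) : BB c (φ.imp ψ) :=
  fun s => .imp (h _) (h' s)

theorem BB.lift {c : ℕ} {φ : Fml} (h : BB c φ) : BB (c + 1) φ := fun _ => .lift (h true)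

theorem BB.mono {c c' : ℕ} {φ : Fml} (h : BB c φ) (hc : c ≤ c') : BB c' φ := by
  obtain ⟨d, rfl⟩ := Nat.exists_eq_add_of_le hc
  clear hc
  induction d with
  | zero => exact h
  | succ d ih => exact ih.lift

theorem BB.all {c : ℕ} {φ : Fml} (h : BB c φ) (x : ℕ) : BB (c + 2) (.all x φ) :=
  fun _ => .lift (.all (.lift (h true)))

theorem BB.all' {c : ℕ} {φ : Fml} (h : Cx false (c + 1) φ) (x : ℕ) : BB (c + 2) (.all x φ) :=
  fun _ => .lift (.all h)

theorem bb_bot (c : ℕ) : BB c .bot := fun _ => .bot _ _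
theorem bb_eq (c x y : ℕ) : BB c (.eq x y) := fun _ => .eq _ _ _ _
theorem bb_zero (c x : ℕ) : BB c (.zero x) := fun _ => .zero _ _ _
theorem bb_succ (c x y : ℕ) : BB c (.succ x y) := fun _ => .succ _ _ _ _
theorem bb_op (c i x y z w : ℕ) : BB c (.op i x y z w) := fun _ => .op _ _ _ _ _ _ _

theorem cx_inv {s : Bool} {k : ℕ} {φ ψ : Fml} (h : Cx s k (φ.imp ψ)) :
    Cx (!s) k φ ∧ Cx s k ψ := by
  generalize hχ : φ.imp ψ = χ at h
  induction h with
  | imp h1 h2 _ _ =>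
    cases hχ
    exact ⟨h1, h2⟩
  | lift h ih =>
    obtain ⟨h1, h2⟩ := ih hχ
    exact ⟨.lift h1, .lift h2⟩
  | _ => cases hχ

theorem BB.inv {c : ℕ} {φ ψ : Fml} (h : BB c (φ.imp ψ)) : BB c φ ∧ BB c ψ :=
  ⟨fun s => by have := (cx_inv (h !s)).1; simpa using this, fun s => (cx_inv (h s)).2⟩

theorem exists_bb (φ : Fml) : ∃ c, BB c φ := by
  induction φ with
  | bot => exact ⟨0, bb_bot _⟩
  | eq x y => exact ⟨0, bb_eq _ _ _⟩
  | zero x => exact ⟨0, bb_zero _ _⟩
  | succ x y => exact ⟨0, bb_succ _ _ _⟩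
  | add x y z => exact ⟨0, fun _ => .add _ _ _ _ _⟩
  | mul x y z => exact ⟨0, fun _ => .mul _ _ _ _ _⟩
  | op i a b c d => exact ⟨0, bb_op _ _ _ _ _ _⟩
  | imp φ ψ ih1 ih2 =>
    obtain ⟨c1, h1⟩ := ih1
    obtain ⟨c2, h2⟩ := ih2
    exact ⟨max c1 c2, (h1.mono (le_max_left _ _)).imp (h2.mono (le_max_right _ _))⟩
  | all x φ ih =>
    obtain ⟨c, h⟩ := ih
    exact ⟨c + 2, h.all x⟩

/-! ### segments -/

/-- lines that are derived from the axioms `Γ` and the available formulas `G` -/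
def Seg (Γ G : List Fml) : List Fml → Prop
  | [] => True
  | φ :: π => Seg Γ G π ∧ Step Γ (π ++ G) φ

theorem step_mono {Γ π π' : List Fml} {φ : Fml} (h : Step Γ π φ)
    (hπ : ∀ ψ ∈ π, ψ ∈ π') : Step Γ π' φ :=
  Pool.Agent.TH838.J1549.step_mono h hπ

theorem seg_append {Γ G : List Fml} {A B : List Fml} (hA : Seg Γ G A) (hB : Seg Γ G B) :
    Seg Γ G (A ++ B) := by
  induction A with
  | nil => exact hB
  | cons φ A ih =>
    refine ⟨ih hA.1, step_mono hA.2 fun ψ hψ => ?_⟩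
    have : ψ ∈ (A ++ B) ++ G := by
      simp only [List.mem_append] at *; tauto
    exact this

theorem seg_mono {Γ G G' : List Fml} (hG : ∀ ψ ∈ G, ψ ∈ G') : ∀ {A : List Fml}, Seg Γ G A →
    Seg Γ G' A
  | [], _ => trivial
  | _ :: A, ⟨h1, h2⟩ => ⟨seg_mono hG h1, step_mono h2 fun ψ hψ => by
      simp only [List.mem_append] at *
      rcases hψ with h | h
      · exact .inl h
      · exact .inr (hG _ h)⟩

theorem seg_trans {Γ G A B : List Fml} (hA : Seg Γ G A) (hB : Seg Γ (A ++ G) B) :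
    Seg Γ G (B ++ A) := by
  induction B with
  | nil => exact hA
  | cons φ B ih =>
    refine ⟨ih hB.1, step_mono hB.2 fun ψ hψ => ?_⟩
    have : ψ ∈ (B ++ A) ++ G := by rw [List.append_assoc]; exact hψ
    exact this

theorem seg_proof {Γ G : List Fml} (hG : IsProof Γ G) : ∀ {A : List Fml}, Seg Γ G A →
    IsProof Γ (A ++ G)
  | [], _ => hG
  | _ :: _, ⟨h1, h2⟩ => ⟨seg_proof hG h1, h2⟩

variable {Γ : List Fml} {K L : ℕ} {G : List Fml}

/-- `φ` is derivable in at most `N` lines, each `Σ_K` and `Π_K` and of length at most `L`. -/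
def Dv (Γ : List Fml) (K L : ℕ) (G : List Fml) (N : ℕ) (φ : Fml) : Prop :=
  ∃ π, Seg Γ G π ∧ π.length ≤ N ∧ (∀ ψ ∈ π, BB K ψ ∧ sz ψ ≤ L) ∧ φ ∈ π ++ G

theorem Dv.mono {N N' : ℕ} {φ : Fml} (h : Dv Γ K L G N φ) (hN : N ≤ N') : Dv Γ K L G N' φ := by
  obtain ⟨π, h1, h2, h3, h4⟩ := h
  exact ⟨π, h1, h2.trans hN, h3, h4⟩

theorem Dv.of_mem {φ : Fml} (h : φ ∈ G) (N : ℕ) : Dv Γ K L G N φ :=
  ⟨[], trivial, Nat.zero_le _, fun _ h => absurd h List.not_mem_nil, by simpa using h⟩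

theorem Dv.ax {φ : Fml} (h : φ ∈ Γ) (hb : BB K φ) (hs : sz φ ≤ L) : Dv Γ K L G 1 φ :=
  ⟨[φ], ⟨trivial, .inl h⟩, le_rfl, fun ψ hψ => by
    rw [List.mem_singleton] at hψ; rw [hψ]; exact ⟨hb, hs⟩, by simp⟩

theorem Dv.log {φ : Fml} (h : LogK φ) (hb : BB K φ) (hs : sz φ ≤ L) : Dv Γ K L G 1 φ :=
  ⟨[φ], ⟨trivial, .inr (.inl h)⟩, le_rfl, fun ψ hψ => by
    rw [List.mem_singleton] at hψ; rw [hψ]; exact ⟨hb, hs⟩, by simp⟩

theorem Dv.mp {N N' : ℕ} {φ ψ : Fml} (h : Dv Γ K L G N (φ.imp ψ)) (h' : Dv Γ K L G N' φ)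
    (hb : BB K ψ) (hs : sz ψ ≤ L) : Dv Γ K L G (N + N' + 1) ψ := by
  obtain ⟨π, h1, h2, h3, h4⟩ := h
  obtain ⟨π', h1', h2', h3', h4'⟩ := h'
  refine ⟨ψ :: (π ++ π'), ⟨seg_append h1 h1', .inr (.inr (.inl ⟨φ, ?_, ?_⟩))⟩, ?_, ?_, by simp⟩
  · simp only [List.mem_append] at *; tauto
  · simp only [List.mem_append] at *; tauto
  · simp only [List.length_cons, List.length_append]; omega
  · intro χ hχ
    simp only [List.mem_cons, List.mem_append] at hχ
    rcases hχ with rfl | hχ | hχ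
    · exact ⟨hb, hs⟩
    · exact h3 χ hχ
    · exact h3' χ hχ

theorem Dv.gen {N : ℕ} {φ : Fml} (h : Dv Γ K L G N φ) (x : ℕ)
    (hb : BB K (.all x φ)) (hs : sz (.all x φ) ≤ L) : Dv Γ K L G (N + 1) (.all x φ) := by
  obtain ⟨π, h1, h2, h3, h4⟩ := h
  refine ⟨.all x φ :: π, ⟨h1, .inr (.inr (.inr ⟨φ, h4, x, rfl⟩))⟩, ?_, ?_, by simp⟩
  · simp only [List.length_cons]; omega
  · intro χ hχ
    rcases List.mem_cons.1 hχ with rfl | hχ
    · exact ⟨hb, hs⟩
    · exact h3 χ hχ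

theorem Dv.cut {N N' : ℕ} {φ ψ : Fml} (h : Dv Γ K L G N φ) (h' : Dv Γ K L (φ :: G) N' ψ) :
    Dv Γ K L G (N + N') ψ := by
  obtain ⟨π, h1, h2, h3, h4⟩ := h
  obtain ⟨π', h1', h2', h3', h4'⟩ := h'
  refine ⟨π' ++ π, seg_trans h1 (seg_mono ?_ h1'), ?_, ?_, ?_⟩
  · intro χ hχ
    rcases List.mem_cons.1 hχ with rfl | hχ
    · exact h4
    · exact List.mem_append_right _ hχ
  · simp only [List.length_append]; omega
  · intro χ hχ
    rcases List.mem_append.1 hχ with hχ | hχ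
    · exact h3' χ hχ
    · exact h3 χ hχ
  · rw [List.append_assoc]
    rcases List.mem_append.1 h4' with h | h
    · exact List.mem_append_left _ h
    · rcases List.mem_cons.1 h with rfl | h
      · exact List.mem_append_right _ h4
      · exact List.mem_append_right _ (List.mem_append_right _ h)

theorem Dv.weakG {G' : List Fml} {N : ℕ} {φ : Fml} (h : Dv Γ K L G N φ)
    (hG : ∀ ψ ∈ G, ψ ∈ G') : Dv Γ K L G' N φ := by
  obtain ⟨π, h1, h2, h3, h4⟩ := h
  refine ⟨π, seg_mono hG h1, h2, h3, ?_⟩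
  rcases List.mem_append.1 h4 with h | h
  · exact List.mem_append_left _ h
  · exact List.mem_append_right _ (hG _ h)

/-! ### propositional rules -/

/-- small formulas -/
structure Bd (K A : ℕ) (φ : Fml) : Prop where
  bb : BB K φ
  le : sz φ ≤ A

theorem Bd.imp {A A' : ℕ} {φ ψ : Fml} (h : Bd K A φ) (h' : Bd K A' ψ) :
    Bd K (A + A' + 4) (φ.imp ψ) :=
  ⟨h.bb.imp h'.bb, by have := h.le; have := h'.le; rw [sz_imp]; omega⟩

theorem Bd.up {A A' : ℕ} {φ : Fml} (h : Bd K A φ) (hA : A ≤ A') : Bd K A' φ :=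
  ⟨h.bb, h.le.trans hA⟩

theorem Dv.kk {N : ℕ} {X g : Fml} (h : Dv Γ K L G N X) (hX : BB K X) (hg : BB K g)
    (hL : 2 * sz X + sz g + 8 ≤ L) : Dv Γ K L G (N + 2) (g.imp X) := by
  have h1 : Dv Γ K L G 1 (X.imp (g.imp X)) :=
    .log (.k X g) (hX.imp (hg.imp hX)) (by simp only [sz_imp]; omega)
  exact (h1.mp h (hg.imp hX) (by simp only [sz_imp]; omega)).mono (by omega)

theorem Dv.ss {N : ℕ} {X Y g : Fml} (h : Dv Γ K L G N (g.imp (X.imp Y))) (hX : BB K X)
    (hY : BB K Y) (hg : BB K g) (hL : 3 * sz g + 2 * sz X + 2 * sz Y + 28 ≤ L) :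
    Dv Γ K L G (N + 2) ((g.imp X).imp (g.imp Y)) := by
  have h1 : Dv Γ K L G 1 ((g.imp (X.imp Y)).imp ((g.imp X).imp (g.imp Y))) :=
    .log (.s g X Y) ((hg.imp (hX.imp hY)).imp ((hg.imp hX).imp (hg.imp hY)))
      (by simp only [sz_imp]; omega)
  exact (h1.mp h ((hg.imp hX).imp (hg.imp hY)) (by simp only [sz_imp]; omega)).mono (by omega)

theorem Dv.id {X : Fml} (hX : BB K X) (hL : 9 * sz X + 40 ≤ L) : Dv Γ K L G 5 (X.imp X) := by
  have hXX := hX.imp hX
  have h1 : Dv Γ K L G 1 (X.imp ((X.imp X).imp X)) :=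
    .log (.k X (X.imp X)) (hX.imp (hXX.imp hX)) (by simp only [sz_imp]; omega)
  have h2 := h1.ss hXX hX hX (by simp only [sz_imp]; omega)
  have h3 : Dv Γ K L G 1 (X.imp (X.imp X)) :=
    .log (.k X X) (hX.imp hXX) (by simp only [sz_imp]; omega)
  exact (h2.mp h3 hXX (by simp only [sz_imp]; omega)).mono (by omega)

/-- from `X → Y` to `(g → X) → (g → Y)` -/
theorem Dv.cm {N : ℕ} {X Y g : Fml} (h : Dv Γ K L G N (X.imp Y)) (hX : BB K X)
    (hY : BB K Y) (hg : BB K g) (hL : 3 * sz g + 2 * sz X + 2 * sz Y + 28 ≤ L) :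
    Dv Γ K L G (N + 4) ((g.imp X).imp (g.imp Y)) := by
  have := sz_pos g
  exact ((h.kk (hX.imp hY) hg (by simp only [sz_imp]; omega)).ss hX hY hg hL).mono (by omega)

theorem Dv.tr {N N' : ℕ} {X Y Z : Fml} (h : Dv Γ K L G N (X.imp Y))
    (h' : Dv Γ K L G N' (Y.imp Z)) (hX : BB K X) (hY : BB K Y) (hZ : BB K Z)
    (hL : 3 * sz X + 2 * sz Y + 2 * sz Z + 28 ≤ L) : Dv Γ K L G (N + N' + 5) (X.imp Z) := by
  have h1 := h'.cm (g := X) hY hZ hX hL
  exact (h1.mp h (hX.imp hZ) (by simp only [sz_imp]; omega)).mono (by omega)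

/-! ### contexts -/

/-- iterated implication -/
def imps (Δ : List Fml) (φ : Fml) : Fml := Δ.foldr Fm.imp φ

@[simp] theorem imps_nil (φ : Fml) : imps [] φ = φ := rfl

@[simp] theorem imps_cons (g : Fml) (Δ : List Fml) (φ : Fml) :
    imps (g :: Δ) φ = g.imp (imps Δ φ) := rfl

theorem imps_append (Δ Δ' : List Fml) (φ : Fml) : imps (Δ ++ Δ') φ = imps Δ (imps Δ' φ) := by
  induction Δ with
  | nil => rfl
  | cons g Δ ih => rw [List.cons_append, imps_cons, imps_cons, ih]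

theorem BB.imps {c : ℕ} {Δ : List Fml} {φ : Fml} (h : ∀ g ∈ Δ, BB c g) (h' : BB c φ) :
    BB c (imps Δ φ) := by
  induction Δ with
  | nil => exact h'
  | cons g Δ ih =>
    exact (h g List.mem_cons_self).imp (ih fun g' hg' => h g' (List.mem_cons_of_mem _ hg'))

theorem BB.imps_inv {c : ℕ} {Δ : List Fml} {φ : Fml} (h : BB c (BC.imps Δ φ)) :
    (∀ g ∈ Δ, BB c g) ∧ BB c φ := by
  induction Δ with
  | nil => exact ⟨fun _ h => absurd h List.not_mem_nil, h⟩
  | cons g Δ ih =>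
    obtain ⟨h1, h2⟩ := BB.inv h
    obtain ⟨h3, h4⟩ := ih h2
    refine ⟨fun g' hg' => ?_, h4⟩
    rcases List.mem_cons.1 hg' with rfl | hg'
    · exact h1
    · exact h3 _ hg'

/-- the total size of a context -/
def cs (Δ : List Fml) : ℕ := (Δ.map fun g => sz g + 4).sum

@[simp] theorem cs_nil : cs [] = 0 := rfl

@[simp] theorem cs_cons (g : Fml) (Δ : List Fml) : cs (g :: Δ) = sz g + 4 + cs Δ := by
  simp [cs]

theorem cs_append (Δ Δ' : List Fml) : cs (Δ ++ Δ') = cs Δ + cs Δ' := by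
  simp [cs]

theorem sz_imps (Δ : List Fml) (φ : Fml) : sz (imps Δ φ) = cs Δ + sz φ := by
  induction Δ with
  | nil => simp
  | cons g Δ ih => rw [imps_cons, sz_imp, ih, cs_cons]; omega

theorem cs_le {Δ : List Fml} {s : ℕ} (h : ∀ g ∈ Δ, sz g ≤ s) : cs Δ ≤ Δ.length * (s + 4) := by
  induction Δ with
  | nil => simp
  | cons g Δ ih =>
    have h1 := h g List.mem_cons_self
    have h2 := ih fun g' hg' => h g' (List.mem_cons_of_mem _ hg')
    rw [cs_cons, List.length_cons, Nat.succ_mul]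
    omega

theorem len_le_cs (Δ : List Fml) : Δ.length ≤ cs Δ := by
  induction Δ with
  | nil => simp
  | cons g Δ ih => rw [cs_cons, List.length_cons]; omega

/-- weakening at the front -/
theorem Dv.wf {N : ℕ} {X : Fml} (h : Dv Γ K L G N X) (hX : BB K X) : ∀ {Δ : List Fml},
    (∀ g ∈ Δ, BB K g) → 2 * (cs Δ + sz X) + 8 ≤ L → Dv Γ K L G (N + 2 * Δ.length) (imps Δ X)
  | [], _, _ => h
  | g :: Δ, hΔ, hL => by
    rw [cs_cons] at hL
    have hΔ' : ∀ g' ∈ Δ, BB K g' := fun g' hg' => hΔ g' (List.mem_cons_of_mem _ hg')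
    have h1 := Dv.wf h hX hΔ' (by omega)
    have h2 := h1.kk (g := g) (BB.imps hΔ' hX) (hΔ g List.mem_cons_self)
      (by rw [sz_imps]; omega)
    exact h2.mono (by rw [List.length_cons]; omega)

/-- monotonicity -/
theorem Dv.mt {N : ℕ} {X Y : Fml} (h : Dv Γ K L G N (X.imp Y)) (hX : BB K X) (hY : BB K Y) :
    ∀ {Δ : List Fml}, (∀ g ∈ Δ, BB K g) → 4 * cs Δ + 2 * sz X + 2 * sz Y + 28 ≤ L →
      Dv Γ K L G (N + 4 * Δ.length) ((imps Δ X).imp (imps Δ Y))
  | [], _, _ => h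
  | g :: Δ, hΔ, hL => by
    rw [cs_cons] at hL
    have hΔ' : ∀ g' ∈ Δ, BB K g' := fun g' hg' => hΔ g' (List.mem_cons_of_mem _ hg')
    have h1 := Dv.mt h hX hY hΔ' (by omega)
    have h2 := h1.cm (g := g) (BB.imps hΔ' hX) (BB.imps hΔ' hY) (hΔ g List.mem_cons_self)
      (by rw [sz_imps, sz_imps]; omega)
    exact h2.mono (by rw [List.length_cons]; omega)

/-- modus ponens in a context -/
theorem mpT {a b : Fml} (ha : BB K a) (hb : BB K b) : ∀ {Δ : List Fml}, (∀ g ∈ Δ, BB K g) →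
    20 * (cs Δ + sz a + sz b) + 100 ≤ L →
      Dv Γ K L G (5 + 11 * Δ.length) ((imps Δ (a.imp b)).imp ((imps Δ a).imp (imps Δ b)))
  | [], _, hL => by
    have := Dv.id (Γ := Γ) (G := G) (L := L) (ha.imp hb) (by
      simp only [sz_imp, cs_nil] at *; omega)
    simpa using this
  | g :: Δ, hΔ, hL => by
    rw [cs_cons] at hL
    have hΔ' : ∀ g' ∈ Δ, BB K g' := fun g' hg' => hΔ g' (List.mem_cons_of_mem _ hg')
    have hg := hΔ g List.mem_cons_self
    have h1 := mpT ha hb hΔ' (by omega)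
    have bA := BB.imps hΔ' (ha.imp hb)
    have bB := BB.imps hΔ' ha
    have bC := BB.imps hΔ' hb
    -- `(g → A) → (g → (B → C))`
    have h2 := h1.cm (g := g) bA (bB.imp bC) hg (by
      simp only [sz_imp, sz_imps]; omega)
    have h3 : Dv Γ K L G 1 ((g.imp ((imps Δ a).imp (imps Δ b))).imp
        ((g.imp (imps Δ a)).imp (g.imp (imps Δ b)))) :=
      .log (.s _ _ _) ((hg.imp (bB.imp bC)).imp ((hg.imp bB).imp (hg.imp bC)))
        (by simp only [sz_imp, sz_imps]; omega)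
    have h4 := h2.tr h3 (hg.imp bA) (hg.imp (bB.imp bC)) ((hg.imp bB).imp (hg.imp bC))
      (by simp only [sz_imp, sz_imps]; omega)
    exact h4.mono (by rw [List.length_cons]; omega)

/-- the universal quantifier and a context -/
theorem genT {c : ℕ} {x : ℕ} {φ : Fml} (hφ : BB c φ) (hK : K = c + 2) : ∀ {Δ : List Fml},
    (∀ g ∈ Δ, BB c g) → (∀ g ∈ Δ, ¬ g.Free x) → 20 * (cs Δ + sz φ + x) + 200 ≤ L →
      Dv Γ K L G (5 + 11 * Δ.length) ((Fm.all x (imps Δ φ)).imp (imps Δ (Fm.all x φ)))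
  | [], _, _, hL => by
    refine Dv.id (Γ := Γ) (G := G) (L := L) (by rw [hK]; exact hφ.all x) (by
      simp only [sz_all, cs_nil, imps_nil] at *; omega)
  | g :: Δ, hΔ, hx, hL => by
    rw [cs_cons] at hL
    have hΔ' : ∀ g' ∈ Δ, BB c g' := fun g' hg' => hΔ g' (List.mem_cons_of_mem _ hg')
    have hg := hΔ g List.mem_cons_self
    have h1 := genT hφ hK hΔ'
      (fun g' hg' => hx g' (List.mem_cons_of_mem _ hg')) (by omega)
    have bZ : BB c (imps Δ φ) := BB.imps hΔ' hφ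
    have bgK : BB K g := hg.mono (by omega)
    have bAZ : BB K (Fm.all x (imps Δ φ)) := by rw [hK]; exact bZ.all x
    have bAgZ : BB K (Fm.all x (g.imp (imps Δ φ))) := by rw [hK]; exact (hg.imp bZ).all x
    have bW : BB K (imps Δ (Fm.all x φ)) :=
      BB.imps (fun g' hg' => (hΔ' g' hg').mono (by omega)) (by rw [hK]; exact hφ.all x)
    have h2 := h1.cm (g := g) bAZ bW bgK (by simp only [sz_all, sz_imps]; omega)
    have h3 : Dv Γ K L G 1 ((Fm.all x (g.imp (imps Δ φ))).imp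
        (g.imp (Fm.all x (imps Δ φ)))) :=
      .log (.dist x g (imps Δ φ) (hx g List.mem_cons_self)) (bAgZ.imp (bgK.imp bAZ))
        (by simp only [sz_imp, sz_all, sz_imps]; omega)
    have h4 := h3.tr h2 bAgZ (bgK.imp bAZ) (bgK.imp bW)
      (by simp only [sz_imp, sz_all, sz_imps]; omega)
    exact h4.mono (by rw [List.length_cons]; omega)

/-- a hypothesis -/
theorem hypT0 {a : Fml} (ha : BB K a) : ∀ {Δ : List Fml}, (∀ g ∈ Δ, BB K g) →
    20 * (cs Δ + sz a) + 100 ≤ L → Dv Γ K L G (5 + 7 * Δ.length) (a.imp (imps Δ a))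
  | [], _, hL => Dv.id ha (by simp only [cs_nil] at hL; omega)
  | g :: Δ, hΔ, hL => by
    rw [cs_cons] at hL
    have hΔ' : ∀ g' ∈ Δ, BB K g' := fun g' hg' => hΔ g' (List.mem_cons_of_mem _ hg')
    have hg := hΔ g List.mem_cons_self
    have h1 := hypT0 ha hΔ' (by omega)
    have bZ := BB.imps hΔ' ha
    have h2 : Dv Γ K L G 1 ((imps Δ a).imp (g.imp (imps Δ a))) :=
      .log (.k _ _) (bZ.imp (hg.imp bZ)) (by simp only [sz_imp, sz_imps]; omega)
    have h3 := h1.tr h2 ha bZ (hg.imp bZ) (by simp only [sz_imp, sz_imps]; omega)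
    exact h3.mono (by rw [List.length_cons]; omega)

theorem hypT {a : Fml} {Δ : List Fml} (h : a ∈ Δ) (hΔ : ∀ g ∈ Δ, BB K g)
    (hL : 40 * cs Δ + 100 ≤ L) : Dv Γ K L G (5 + 9 * Δ.length) (imps Δ a) := by
  obtain ⟨Δ1, Δ2, rfl⟩ := List.append_of_mem h
  rw [cs_append, cs_cons] at hL
  have ha := hΔ a (by simp)
  have h2 : ∀ g ∈ Δ2, BB K g := fun g hg => hΔ g (by simp [hg])
  have h1 : ∀ g ∈ Δ1, BB K g := fun g hg => hΔ g (by simp [hg])
  have h3 := hypT0 (Γ := Γ) (G := G) (L := L) ha h2 (by omega)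
  have h4 := h3.wf (ha.imp (BB.imps h2 ha)) h1 (by simp only [sz_imp, sz_imps]; omega)
  rw [imps_append, imps_cons]
  refine h4.mono ?_
  simp only [List.length_append, List.length_cons]
  omega

end Pool.Agent.J6H49.BC
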