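import Pool.Agent.J6H49.BC.Stm2

/-!
# Simulation of bounded natural deduction by bounded Hilbert proofs
-/

set_option autoImplicit false

namespace Pool.Agent.J6H49.BC

open Pool.Agent.TH672 (Fm LogK)
open Pool.Agent.TH636.BC (Fml)

variable {Γ G : List Fml} {c s l K L : ℕ}

theorem W.inv {φ ψ : Fml} (h : W c s (φ.imp ψ)) : W c s φ ∧ W c s ψ := by
  obtain ⟨h1, h2⟩ := BB.inv h.bb
  have := h.le
  rw [sz_imp] at this
  exact ⟨⟨h1, by omega⟩, ⟨h2, by omega⟩⟩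

theorem ND.wf {N : ℕ} {Δ : List Fml} {φ : Fml} (h : ND Γ c s l G N Δ φ) :
    Δ.length ≤ l ∧ (∀ g ∈ Δ, W c s g) ∧ W c s φ := by
  induction h with
  | hyp h1 h2 h3 => exact ⟨h1, h2, h2 _ h3⟩
  | thm h1 h2 h3 _ => exact ⟨h1, h2, h3⟩
  | mp _ _ ih1 _ => exact ⟨ih1.1, ih1.2.1, (W.inv ih1.2.2).2⟩
  | impI _ h2 ih =>
    refine ⟨?_, fun g hg => ih.2.1 g (List.mem_append_left _ hg), h2⟩
    have := ih.1
    rw [List.length_append] at this
    omega
  | allI _ _ h3 ih => exact ⟨ih.1, ih.2.1, h3⟩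
  | allE _ _ _ h3 ih => exact ⟨ih.1, ih.2.1, h3⟩
  | dn _ ih => exact ⟨ih.1, ih.2.1, (W.inv (W.inv ih.2.2).1).1⟩
  | sub _ _ h3 h4 ih => exact ⟨h3, h4, ih.2.2⟩
  | up _ _ ih => exact ih

/-- peeling -/
theorem peel {φ : Fml} (hφ : BB K φ) {Δ' : List Fml} (hΔ' : ∀ g ∈ Δ', BB K g) :
    ∀ {Δ : List Fml} {N : ℕ}, (∀ g ∈ Δ, g ∈ Δ') →
      40 * (cs Δ' + cs Δ + sz φ) + 400 ≤ L → Dv Γ K L G N (imps Δ' (imps Δ φ)) →
        Dv Γ K L G (N + Δ.length * (12 + 20 * Δ'.length)) (imps Δ' φ)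
  | [], N, _, _, h => by simpa using h
  | g :: Δ, N, hΔ, hL, h => by
    rw [cs_cons] at hL
    have hg : g ∈ Δ' := hΔ g List.mem_cons_self
    have hΔ1 : ∀ g' ∈ Δ, g' ∈ Δ' := fun g' hg' => hΔ g' (List.mem_cons_of_mem _ hg')
    have bZ : BB K (imps Δ φ) := BB.imps (fun g' hg' => hΔ' _ (hΔ1 _ hg')) hφ
    have bg := hΔ' g hg
    have h1 : Dv Γ K L G (5 + 11 * Δ'.length) _ := mpT bg bZ hΔ' (by rw [sz_imps]; omega)
    rw [imps_cons] at h
    have h2 := h1.mp h ((BB.imps hΔ' bg).imp (BB.imps hΔ' bZ))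
      (by simp only [sz_imp, sz_imps]; omega)
    have h3 : Dv Γ K L G (5 + 9 * Δ'.length) (imps Δ' g) := hypT hg hΔ' (by omega)
    have h4 := h2.mp h3 (BB.imps hΔ' bZ) (by simp only [sz_imps]; omega)
    have h5 := peel hφ hΔ' hΔ1 (by omega) h4
    refine h5.mono ?_
    rw [List.length_cons, Nat.add_mul Δ.length 1, Nat.one_mul]
    omega

theorem sim (hK : K = c + 2) (hL : 1000 * ((l + 1) * (s + 4) + 1) ≤ L) {N : ℕ}
    {Δ : List Fml} {φ : Fml} (h : ND Γ c s l G N Δ φ) :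
    Dv Γ K L G (N * (100 * (l + 1) ^ 2)) (imps Δ φ) := by
  have hbb : ∀ {ψ : Fml}, W c s ψ → BB K ψ := fun h => h.bb.mono (by omega)
  have hcs : ∀ {Δ : List Fml}, Δ.length ≤ l → (∀ g ∈ Δ, W c s g) →
      cs Δ + s + 4 ≤ (l + 1) * (s + 4) := by
    intro Δ h1 h2
    have h3 := cs_le fun g hg => (h2 g hg).le
    have h4 : Δ.length * (s + 4) ≤ l * (s + 4) := Nat.mul_le_mul_right _ h1
    rw [Nat.add_mul, Nat.one_mul]
    omega
  have hC1 : 200 * l + 100 ≤ 100 * (l + 1) ^ 2 := by nlinarith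
  have hC2 : 2 * l + l * (12 + 20 * l) ≤ 100 * (l + 1) ^ 2 := by nlinarith
  generalize 100 * (l + 1) ^ 2 = C at hC1 hC2 ⊢
  obtain ⟨A, hA⟩ : ∃ A, A = (l + 1) * (s + 4) := ⟨_, rfl⟩
  rw [← hA] at hL
  rw [← hA] at hcs
  induction h with
  | hyp h1 h2 h3 =>
    have := hcs h1 h2
    exact (hypT h3 (fun g hg => hbb (h2 g hg)) (by omega)).mono (by omega)
  | @thm Δ φ h1 h2 h3 h4 =>
    have := hcs h1 h2
    have := h3.le
    have h5 : Dv Γ K L G 1 φ := by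
      rcases h4 with h4 | h4 | h4
      · exact .of_mem h4 _
      · exact .ax h4 (hbb h3) (by omega)
      · exact .log h4 (hbb h3) (by omega)
    exact (h5.wf (hbb h3) (fun g hg => hbb (h2 g hg)) (by omega)).mono (by omega)
  | @mp N N' Δ φ ψ k1 k2 ih1 ih2 =>
    obtain ⟨h1, h2, h3⟩ := k1.wf
    obtain ⟨h4, h5⟩ := W.inv h3
    have e1 := hcs h1 h2
    have e2 := h3.le
    have e3 := h4.le
    have e4 := h5.le
    have hb : ∀ g ∈ Δ, BB K g := fun g hg => hbb (h2 g hg)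
    have q1 : Dv Γ K L G (5 + 11 * Δ.length) _ := mpT (hbb h4) (hbb h5) hb (by omega)
    have q2 := q1.mp ih1 ((BB.imps hb (hbb h4)).imp (BB.imps hb (hbb h5)))
      (by simp only [sz_imp, sz_imps]; omega)
    have q3 := q2.mp ih2 (BB.imps hb (hbb h5)) (by simp only [sz_imps]; omega)
    refine q3.mono ?_
    rw [Nat.add_mul (N + N') 1 C, Nat.add_mul N N' C, Nat.one_mul]
    omega
  | @impI N Δ φ ψ k1 h2 ih =>
    rw [imps_append] at ih
    exact ih.mono (Nat.mul_le_mul_right _ (Nat.le_succ _))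
  | @allI N x Δ φ k1 hx h3 ih =>
    obtain ⟨h1, h2, h4⟩ := k1.wf
    have e1 := hcs h1 h2
    have e2 := h3.le
    have e3 := h4.le
    rw [sz_all] at e2
    have hb : ∀ g ∈ Δ, BB K g := fun g hg => hbb (h2 g hg)
    have hb' : ∀ g ∈ Δ, BB c g := fun g hg => (h2 g hg).bb
    have b1 : BB K (Fm.all x (imps Δ φ)) := by rw [hK]; exact (BB.imps hb' h4.bb).all x
    have q1 := ih.gen x b1 (by simp only [sz_all, sz_imps]; omega)
    have q2 : Dv Γ K L G (5 + 11 * Δ.length) _ := genT h4.bb hK hb' hx (by omega)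
    have q3 := q2.mp q1 (BB.imps hb (hbb h3)) (by simp only [sz_all, sz_imps]; omega)
    refine q3.mono ?_
    rw [Nat.add_mul N 1 C, Nat.one_mul]
    omega
  | @allE N x Δ φ y k1 hf h3 ih =>
    obtain ⟨h1, h2, h4⟩ := k1.wf
    have e1 := hcs h1 h2
    have e2 := h3.le
    have e3 := h4.le
    have hb : ∀ g ∈ Δ, BB K g := fun g hg => hbb (h2 g hg)
    have q1 : Dv Γ K L G 1 ((Fm.all x φ).imp (φ.subst x y)) :=
      .log (.inst x y φ hf) ((hbb h4).imp (hbb h3)) (by rw [sz_imp]; omega)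
    have q2 := q1.mt (hbb h4) (hbb h3) hb (by omega)
    have q3 := q2.mp ih (BB.imps hb (hbb h3)) (by simp only [sz_imps]; omega)
    refine q3.mono ?_
    rw [Nat.add_mul N 1 C, Nat.one_mul]
    omega
  | @dn N Δ φ k1 ih =>
    obtain ⟨h1, h2, h4⟩ := k1.wf
    have h3 : W c s φ := (W.inv (W.inv h4).1).1
    have e1 := hcs h1 h2
    have e2 := h3.le
    have e3 := h4.le
    have hb : ∀ g ∈ Δ, BB K g := fun g hg => hbb (h2 g hg)
    have q1 : Dv Γ K L G 1 (φ.neg.neg.imp φ) :=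
      .log (.dn φ) ((hbb h4).imp (hbb h3)) (by rw [sz_imp]; omega)
    have q2 := q1.mt (hbb h4) (hbb h3) hb (by omega)
    have q3 := q2.mp ih (BB.imps hb (hbb h3)) (by simp only [sz_imps]; omega)
    refine q3.mono ?_
    rw [Nat.add_mul N 1 C, Nat.one_mul]
    omega
  | @sub N Δ Δ' φ k1 hs h3 h4 ih =>
    obtain ⟨h1, h2, h5⟩ := k1.wf
    have e1 := hcs h1 h2
    have e1' := hcs h3 h4
    have e3 := h5.le
    have hb : ∀ g ∈ Δ, BB K g := fun g hg => hbb (h2 g hg)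
    have hb' : ∀ g ∈ Δ', BB K g := fun g hg => hbb (h4 g hg)
    have q1 := ih.wf (BB.imps hb (hbb h5)) hb' (by rw [sz_imps]; omega)
    have q2 := peel (hbb h5) hb' hs (by omega) q1
    refine q2.mono ?_
    rw [Nat.add_mul N 1 C, Nat.one_mul]
    have e5 : Δ.length * (12 + 20 * Δ'.length) ≤ l * (12 + 20 * l) :=
      Nat.mul_le_mul h1 (by omega)
    omega
  | up _ hN ih => exact ih.mono (Nat.mul_le_mul_right _ hN)

theorem d4 : D4T := fun _ _ _ _ _ _ hL _ _ _ h => sim rfl hL h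

/-- substitution -/
theorem Dv.subst {N : ℕ} {φ : Fml} (h : Dv Γ K L G N φ) {x y : ℕ} (hf : φ.FreeFor y x)
    (h1 : BB K (.all x φ)) (h2 : BB K (φ.subst x y))
    (hL : sz φ + sz (φ.subst x y) + x + 20 ≤ L) :
    Dv Γ K L G (N + 3) (φ.subst x y) := by
  have q1 := h.gen x h1 (by rw [sz_all]; omega)
  have q2 : Dv Γ K L G 1 ((Fm.all x φ).imp (φ.subst x y)) :=
    .log (.inst x y φ hf) (h1.imp h2) (by rw [sz_imp, sz_all]; omega)
  exact (q2.mp q1 h2 (by omega)).mono (by omega)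

end Pool.Agent.J6H49.BC
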