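import Pool.Agent.J6H49.BC.Hil

/-!
# Bounded natural deduction and the modules of the short proofs
-/

set_option autoImplicit false

namespace Pool.Agent.J6H49.BC

open Pool.Agent.TH672 (Fm LogK)
open Pool.Agent.TH636.BC (Fml blk inst lt col)

/-- small formulas -/
structure W (c s : ℕ) (φ : Fml) : Prop where
  bb : BB c φ
  le : sz φ ≤ s

/-- Natural deduction from the axioms `Γ` and the available formulas `G`; all formulas are small
and the contexts have at most `l` members; the number bounds the number of rules used. -/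
inductive ND (Γ : List Fml) (c s l : ℕ) (G : List Fml) : ℕ → List Fml → Fml → Prop
  | hyp {Δ : List Fml} {φ : Fml} : Δ.length ≤ l → (∀ g ∈ Δ, W c s g) → φ ∈ Δ → ND Γ c s l G 1 Δ φ
  | thm {Δ : List Fml} {φ : Fml} : Δ.length ≤ l → (∀ g ∈ Δ, W c s g) → W c s φ →
      (φ ∈ G ∨ φ ∈ Γ ∨ LogK φ) → ND Γ c s l G 1 Δ φ
  | mp {N N' : ℕ} {Δ : List Fml} {φ ψ : Fml} : ND Γ c s l G N Δ (φ.imp ψ) →
      ND Γ c s l G N' Δ φ → ND Γ c s l G (N + N' + 1) Δ ψ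
  | impI {N : ℕ} {Δ : List Fml} {φ ψ : Fml} : ND Γ c s l G N (Δ ++ [φ]) ψ → W c s (φ.imp ψ) →
      ND Γ c s l G (N + 1) Δ (φ.imp ψ)
  | allI {N x : ℕ} {Δ : List Fml} {φ : Fml} : ND Γ c s l G N Δ φ → (∀ g ∈ Δ, ¬ g.Free x) →
      W c s (.all x φ) → ND Γ c s l G (N + 1) Δ (.all x φ)
  | allE {N x : ℕ} {Δ : List Fml} {φ : Fml} (y : ℕ) : ND Γ c s l G N Δ (.all x φ) →
      φ.FreeFor y x → W c s (φ.subst x y) → ND Γ c s l G (N + 1) Δ (φ.subst x y)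
  | dn {N : ℕ} {Δ : List Fml} {φ : Fml} : ND Γ c s l G N Δ φ.neg.neg → ND Γ c s l G (N + 1) Δ φ
  | sub {N : ℕ} {Δ Δ' : List Fml} {φ : Fml} : ND Γ c s l G N Δ φ → (∀ g ∈ Δ, g ∈ Δ') →
      Δ'.length ≤ l → (∀ g ∈ Δ', W c s g) → ND Γ c s l G (N + 1) Δ' φ
  | up {N N' : ℕ} {Δ : List Fml} {φ : Fml} : ND Γ c s l G N Δ φ → N ≤ N' → ND Γ c s l G N' Δ φ

/-! ### names of variables -/

/-- the nodes `u_i` -/
def pn (i : ℕ) : ℕ := 40 + 6 * i
/-- the colours `c_i` -/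
def qn (i : ℕ) : ℕ := 41 + 6 * i
/-- the colours `d_i` (they will be the numbers `i`) -/
def dn (i : ℕ) : ℕ := 42 + 6 * i
/-- the bounds `b_i` -/
def bn (i : ℕ) : ℕ := 43 + 6 * i
/-- the bounds `g_i` -/
def gn (i : ℕ) : ℕ := 44 + 6 * i

/-! ### the formulas -/

/-- the pairs `(u, c)` with `u` and `v` of colour `c` -/
def cols (P : List (ℕ × ℕ)) (v : ℕ) : List Fml := P.map fun x => col x.1 v x.2

/-- `e` is different from the members of `D` -/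
def neqs (D : List ℕ) (e : ℕ) : List Fml := D.map fun d => Fm.neg (.eq e d)

/-- Let `S` be the set of the `v` with `col (u, v, c)` for the pairs `(u, c)` in `P`: the colours of
the pairs in `S` are in `D`. -/
def Hyp (P : List (ℕ × ℕ)) (D : List ℕ) : Fml :=
  .all 17 (.all 19 (.all 23 (imps (cols P 17) (imps (cols P 19)
    (.imp (col 17 19 23) (imps (neqs D 23) .bot))))))

/-- `S` is unbounded -/
def Kf (P : List (ℕ × ℕ)) : Fml :=
  .all 15 (.neg (.all 17 (.imp (hi 15 17) (imps (cols P 17) .bot))))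

/-- if the colours of the pairs in `S` are in `D`, then `S` is bounded -/
def FF (P : List (ℕ × ℕ)) (D : List ℕ) : Fml := .imp (Hyp P D) (.imp (Kf P) .bot)

/-- `(u_0, c_0), ..., (u_(k-1), c_(k-1))` -/
def PP (k : ℕ) : List (ℕ × ℕ) := (List.range k).map fun i => (pn i, qn i)

/-- `d_0, ..., d_(r-1)` -/
def DD (r : ℕ) : List ℕ := (List.range r).map dn

/-- `d_0, ..., d_(r-2)` with `d_j` replaced by `d_(r-1)`: all `d_i`, `i < r`, without `d_j` -/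
def DJ (r j : ℕ) : List ℕ := (List.range (r - 1)).map fun i => if i = j then dn (r - 1) else dn i

/-- `(u_0, c_0), ..., (u_(k-1), c_(k-1)), (u_k, d_j)` -/
def PJ (k j : ℕ) : List (ℕ × ℕ) := PP k ++ [(pn k, dn j)]

/-- the context after the choice of `u_k` in `S` -/
def G2 (k r : ℕ) : List Fml := [Hyp (PP k) (DD r), Kf (PP k), hi 39 (pn k)] ++ cols (PP k) (pn k)

/-- MODULE D2a: the set of the `v` in `S` for which the colour of `u_k` and `v` is `d_j` is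
bounded. -/
def D2aT : Prop := ∃ C0 : ℕ, ∀ C, C0 ≤ C → ∀ n k r j : ℕ, k + r ≤ n → j < r → ∀ G : List Fml,
  FF (PJ k j) (DJ r j) ∈ G →
    ND WB 9 (C * (n + 1) ^ 3) (C * (n + 1)) G (C * (n + 1) ^ 3) (G2 k r) (Fm.neg (Kf (PJ k j)))

/-- MODULE D2b: the step of the induction. -/
def D2bT : Prop := ∃ C0 : ℕ, ∀ C, C0 ≤ C → ∀ n k r N : ℕ, k + r ≤ n → ∀ G : List Fml,
  (∀ j < r, ND WB 9 (C * (n + 1) ^ 3) (C * (n + 1)) G N (G2 k r) (Fm.neg (Kf (PJ k j)))) →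
    ND WB 9 (C * (n + 1) ^ 3) (C * (n + 1)) G (r * N + C * (n + 1) ^ 3) [] (FF (PP k) (DD r))

/-- `d_0 = 0`, `d_(i+1) = d_i + 1` for `i < n` -/
def chain (n : ℕ) : List Fml :=
  Fm.zero (dn 0) :: (List.range n).map fun i => Fm.succ (dn i) (dn (i + 1))

/-- all colours are less than `t` -/
def Wn (t : ℕ) : Fml := .all 33 (.all 35 (.all 37 (.imp (col 33 35 37) (lt 37 t))))

/-- MODULE D3a: not all colours are less than `n`, with the variables `d_0, ..., d_n` for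
`0, ..., n`. -/
def D3aT : Prop := ∃ C0 : ℕ, ∀ C, C0 ≤ C → ∀ n : ℕ, ∀ G : List Fml, FF [] (DD n) ∈ G →
  ND WB 9 (C * (n + 1) ^ 3) (C * (n + 1)) G (C * (n + 1) ^ 3) [] (imps (chain n ++ [Wn (dn n)]) .bot)

/-- the rest of the instance after `i` blocks: `i` blocks are to come -/
def Rr (Y : Fml) (i : ℕ) : Fml := blk^[i] (.all 3 (.imp (.eq 3 0) Y))

/-- MODULE D3b, first part: the last instance. -/
def D3b1T : Prop := ∀ (Y : Fml) (c : ℕ), (∀ x, Y.Free x → x = 3) → 9 ≤ c → BB c Y →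
  ∃ C0 : ℕ, ∀ C, C0 ≤ C → ∀ n : ℕ, ∀ G : List Fml,
    imps (chain n ++ [Wn (dn n)]) .bot ∈ G → Fm.all 3 (XX.imp Y) ∈ G →
      ND WB (c + 4) (C * (n + 1) ^ 3) (C * (n + 1)) G (C * (n + 1) ^ 3) []
        (imps (chain n ++ [.eq 0 (dn n)]) (Rr Y 0))

/-- MODULE D3b, second part: one block more. -/
def D3b2T : Prop := ∀ (Y : Fml) (c : ℕ), (∀ x, Y.Free x → x = 3) → 9 ≤ c → BB c Y →
  ∃ C0 : ℕ, ∀ C, C0 ≤ C → ∀ n i j : ℕ, i + j + 1 ≤ n → ∀ G : List Fml,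
    imps (chain j ++ [.succ (dn j) 1, .eq 0 1]) (Rr Y i) ∈ G →
      ND WB (c + 4) (C * (n + 1) ^ 3) (C * (n + 1)) G (C * (n + 1) ^ 3) []
        (imps (chain j ++ [.eq 0 (dn j)]) (Rr Y (i + 1)))

/-- MODULE D3b, third part: the instance. -/
def D3b3T : Prop := ∀ (Y : Fml) (c : ℕ), (∀ x, Y.Free x → x = 3) → 9 ≤ c → BB c Y →
  ∃ C0 : ℕ, ∀ C, C0 ≤ C → ∀ n : ℕ, ∀ G : List Fml,
    imps [.zero 0, .eq 0 0] (Rr Y n) ∈ G →
      ND WB (c + 4) (C * (n + 1) ^ 3) (C * (n + 1)) G (C * (n + 1) ^ 3) [] (inst 3 n Y)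

/-- MODULE D4: simulation of natural deduction by Hilbert proofs. -/
def D4T : Prop := ∀ (Γ G : List Fml) (c s l L : ℕ), 1000 * ((l + 1) * (s + 4) + 1) ≤ L →
  ∀ (N : ℕ) (Δ : List Fml) (φ : Fml), ND Γ c s l G N Δ φ →
    Dv Γ (c + 2) L G (N * (100 * (l + 1) ^ 2)) (imps Δ φ)

end Pool.Agent.J6H49.BC
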